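import Pool.Agent.Q192.QD.Field

/-!
# Counting tuples of quadratic points
-/

set_option autoImplicit false

open Finset NumberField Module

namespace Pool.Agent.Q192.QD

open Pool.Agent.Y120 (NormRing Pt RK RK_norm gK HtLe Pt_of_HtLe house_le house_ge)
open Pool.Agent.Y124 (OneV MgR multiR mgR RelK RelR_mono RelR_of_RelK gK_lt relK_of_poly')

/-- points of the upper half-plane which are zeros of quadratic polynomials with integral coefficients of absolute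
value at most `T` -/
def Quad (T : ℝ) (τ : ℂ) : Prop :=
  0 < τ.im ∧ ∃ a b c : ℤ, a ≠ 0 ∧ |(a : ℝ)| ≤ T ∧ |(b : ℝ)| ≤ T ∧ |(c : ℝ)| ≤ T ∧ (a : ℂ) * τ ^ 2 + b * τ + c = 0

/-- algebraic integers of the field generated by `S` all of whose conjugates have absolute value at most `H` -/
def SInt (S : Set ℂ) (H : ℝ) (c : ℂ) : Prop :=
  c ∈ IntermediateField.adjoin ℚ S ∧ IsIntegral ℤ c ∧ ∀ z ∈ (minpoly ℚ c).aroots ℂ, ‖z‖ ≤ H

theorem htLe_of {n : ℕ} (D : Fin n → ℕ) (j : Fin n) (a b : ℤ) (ha : a ≠ 0) (T : ℝ) (haT : |(a : ℝ)| ≤ T)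
    (hbT : |(b : ℝ)| ≤ T) (hD : (D j : ℝ) ≤ (2 * T) ^ 2) :
    ∃ t : KD D, (t : ℂ) = (-b + sq (D j)) / (2 * a) ∧ HtLe (KD D) (3 * T) t := by
  have hT : 0 ≤ T := (abs_nonneg _).trans haT
  have hint : IsIntegral ℤ (⟨sq (D j), sq_mem D j⟩ : KD D) := by
    have h := sq_int (D j)
    exact (isIntegral_algebraMap_iff (B := ℂ) (FaithfulSMul.algebraMap_injective (KD D) ℂ)).1 h
  set s : 𝓞 (KD D) := ⟨⟨sq (D j), sq_mem D j⟩, hint⟩ with hs
  have hs2 : (s : KD D) ^ 2 = -((D j : ℕ) : KD D) := by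
    apply Subtype.ext
    change (sq (D j)) ^ 2 = _
    rw [sq_sq]
    simp
  have hsφ : ∀ φ : KD D →+* ℂ, ‖φ (s : KD D)‖ ≤ 2 * T := by
    intro φ
    have h1 : φ (s : KD D) ^ 2 = -((D j : ℕ) : ℂ) := by
      rw [← map_pow, hs2, map_neg, map_natCast]
    have h2 : ‖φ (s : KD D)‖ ^ 2 = (D j : ℝ) := by
      rw [← norm_pow, h1, norm_neg, Complex.norm_natCast]
    exact abs_le_of_sq_le_sq' (by rw [h2]; exact hD) (by positivity) |>.2
  refine ⟨((-(b : 𝓞 (KD D)) + s : 𝓞 (KD D)) : KD D) / ((2 * (a : 𝓞 (KD D)) : 𝓞 (KD D)) : KD D), ?_, _, _, ?_, ?_, ?_, rfl⟩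
  · have e1 : (((-(b : 𝓞 (KD D)) + s : 𝓞 (KD D)) : KD D) : ℂ) = -(b : ℂ) + sq (D j) := by
      change ((algebraMap (KD D) ℂ).comp (algebraMap (𝓞 (KD D)) (KD D))) (-(b : 𝓞 (KD D)) + s) = _
      rw [map_add, map_neg, map_intCast]
      rfl
    have e2 : (((2 * (a : 𝓞 (KD D)) : 𝓞 (KD D)) : KD D) : ℂ) = 2 * (a : ℂ) := by
      change ((algebraMap (KD D) ℂ).comp (algebraMap (𝓞 (KD D)) (KD D))) (2 * (a : 𝓞 (KD D))) = _
      rw [map_mul, map_intCast, map_ofNat]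
    rw [← e1, ← e2]
    push_cast
    rfl
  · have : (a : 𝓞 (KD D)) ≠ 0 := by exact_mod_cast ha
    exact mul_ne_zero two_ne_zero this
  · refine house_le _ (by positivity) fun φ => ?_
    have h1 : φ ((-(b : 𝓞 (KD D)) + s : 𝓞 (KD D)) : KD D) = -(b : ℂ) + φ (s : KD D) := by
      change (φ.comp (algebraMap (𝓞 (KD D)) (KD D))) (-(b : 𝓞 (KD D)) + s) = _
      rw [map_add, map_neg, map_intCast]
      rfl
    rw [h1]
    refine (norm_add_le _ _).trans ?_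
    rw [norm_neg, Complex.norm_intCast]
    linarith [hsφ φ]
  · refine house_le _ (by positivity) fun φ => ?_
    have h1 : φ ((2 * (a : 𝓞 (KD D)) : 𝓞 (KD D)) : KD D) = 2 * (a : ℂ) := by
      change (φ.comp (algebraMap (𝓞 (KD D)) (KD D))) (2 * (a : 𝓞 (KD D))) = _
      rw [map_mul, map_intCast, map_ofNat]
    rw [h1, norm_mul, Complex.norm_intCast]
    have : ‖(2 : ℂ)‖ = 2 := by simp
    rw [this]
    linarith

theorem sInt_KD {n : ℕ} (D : Fin n → ℕ) (τ : Fin n → ℂ) (hτ : ∀ j, τ j ∈ KD D) (H : ℝ) (c : ℂ)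
    (hc : SInt (Set.range τ) H c) : ∃ x : 𝓞 (KD D), ((x : KD D) : ℂ) = c ∧ ∀ φ : KD D →+* ℂ, ‖φ (x : KD D)‖ ≤ H := by
  obtain ⟨h1, h2, h3⟩ := hc
  have h4 : IntermediateField.adjoin ℚ (Set.range τ) ≤ KD D := by
    rw [IntermediateField.adjoin_le_iff]
    rintro _ ⟨j, rfl⟩
    exact hτ j
  have hint : IsIntegral ℤ (⟨c, h4 h1⟩ : KD D) :=
    (isIntegral_algebraMap_iff (B := ℂ) (FaithfulSMul.algebraMap_injective (KD D) ℂ)).1 h2
  refine ⟨⟨⟨c, h4 h1⟩, hint⟩, rfl, fun φ => ?_⟩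
  apply h3
  have h5 : minpoly ℚ (⟨c, h4 h1⟩ : KD D) = minpoly ℚ c := by
    rw [← minpoly.algebraMap_eq (B := KD D) (B' := ℂ) (FaithfulSMul.algebraMap_injective (KD D) ℂ)]
    rfl
  have h2' : IsIntegral ℚ c := h2.tower_top
  rw [Polynomial.mem_aroots]
  refine ⟨minpoly.ne_zero h2', ?_⟩
  rw [← h5]
  have h6 := minpoly.aeval ℚ (⟨c, h4 h1⟩ : KD D)
  have h7 := congrArg φ h6
  rw [map_zero, Polynomial.aeval_def, Polynomial.hom_eval₂] at h7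
  rw [Polynomial.aeval_def]
  refine Eq.trans ?_ h7
  congr 1
  exact RingHom.ext_rat _ _

/-- triples of coefficients -/
noncomputable def Trip (T : ℝ) : Finset (ℤ × ℤ × ℤ) :=
  (Finset.Icc (-⌊T⌋) ⌊T⌋) ×ˢ (Finset.Icc (-⌊T⌋) ⌊T⌋) ×ˢ (Finset.Icc (-⌊T⌋) ⌊T⌋)

theorem mem_Trip {T : ℝ} {a b c : ℤ} (ha : |(a : ℝ)| ≤ T) (hb : |(b : ℝ)| ≤ T) (hc : |(c : ℝ)| ≤ T) :
    (a, b, c) ∈ Trip T := by
  have key : ∀ x : ℤ, |(x : ℝ)| ≤ T → x ∈ Finset.Icc (-⌊T⌋) ⌊T⌋ := by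
    intro x hx
    rw [Finset.mem_Icc]
    obtain ⟨h1, h2⟩ := abs_le.1 hx
    have h3 : x ≤ ⌊T⌋ := Int.le_floor.2 h2
    have h4 : -x ≤ ⌊T⌋ := Int.le_floor.2 (by push_cast; linarith)
    constructor <;> omega
  exact Finset.mem_product.2 ⟨key a ha, Finset.mem_product.2 ⟨key b hb, key c hc⟩⟩

theorem card_Trip {T : ℝ} (hT : 1 ≤ T) : ((Trip T).card : ℝ) ≤ 27 * T ^ 3 := by
  have h0 : (0 : ℤ) ≤ ⌊T⌋ := Int.floor_nonneg.2 (by linarith)
  have h1 : ((Finset.Icc (-⌊T⌋) ⌊T⌋).card : ℝ) ≤ 3 * T := by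
    rw [Int.card_Icc]
    have h2 : (((⌊T⌋ + 1 - -⌊T⌋).toNat : ℤ) : ℝ) = 2 * ⌊T⌋ + 1 := by
      rw [Int.toNat_of_nonneg (by omega)]
      push_cast
      ring
    have h3 : (((⌊T⌋ + 1 - -⌊T⌋).toNat : ℕ) : ℝ) = 2 * ⌊T⌋ + 1 := by
      rw [← h2]
      norm_cast
    rw [h3]
    have h4 := Int.floor_le T
    linarith
  rw [Trip, Finset.card_product, Finset.card_product]
  push_cast
  have h2 : (0 : ℝ) ≤ ((Finset.Icc (-⌊T⌋) ⌊T⌋).card : ℝ) := Nat.cast_nonneg _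
  calc ((Finset.Icc (-⌊T⌋) ⌊T⌋).card : ℝ) * (((Finset.Icc (-⌊T⌋) ⌊T⌋).card : ℝ) * ((Finset.Icc (-⌊T⌋) ⌊T⌋).card : ℝ))
      ≤ (3 * T) * ((3 * T) * (3 * T)) := by gcongr
    _ = 27 * T ^ 3 := by ring

/-- the root of a triple -/
noncomputable def root (t : ℤ × ℤ × ℤ) : ℂ :=
  (-t.2.1 + sq (4 * t.1 * t.2.2 - t.2.1 ^ 2).toNat) / (2 * t.1)

/-- the points of discriminant `-D` -/
noncomputable def XD (T : ℝ) (L : Set ℂ) (D : ℕ) : Finset ℂ := by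
  classical
  exact ((Trip T).filter fun t => 0 < t.1 ∧ |(t.1 : ℝ)| ≤ T ∧ |(t.2.1 : ℝ)| ≤ T ∧
    (4 * t.1 * t.2.2 - t.2.1 ^ 2).toNat = D ∧ (D : ℝ) ≤ (2 * T) ^ 2 ∧ root t ∈ L).image root

theorem XD_pt {n : ℕ} (D : Fin n → ℕ) (T : ℝ) (L : Set ℂ) (j : Fin n) {x : ℂ} (hx : x ∈ XD T L (D j)) :
    x ∈ L ∧ ∃ t : KD D, (KD D).val.toRingHom t = x ∧ HtLe (KD D) (3 * T) t := by
  classical
  rw [XD, Finset.mem_image] at hx
  obtain ⟨t, ht, rfl⟩ := hx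
  obtain ⟨-, h1, h2, h3, h4, h5, h6⟩ := Finset.mem_filter.1 ht
  refine ⟨h6, ?_⟩
  obtain ⟨s, hs1, hs2⟩ := htLe_of D j t.1 t.2.1 h1.ne' T h2 h3 h5
  refine ⟨s, ?_, hs2⟩
  change (s : ℂ) = root t
  rw [hs1, root, h4]

theorem sum_XD (T : ℝ) (hT : 1 ≤ T) (L : Set ℂ) (N : Finset ℕ) : (∑ D ∈ N, ((XD T L D).card : ℝ)) ≤ 27 * T ^ 3 := by
  classical
  refine le_trans ?_ (card_Trip hT)
  have h1 : ∑ D ∈ N, (XD T L D).card ≤ (Trip T).card := by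
    calc ∑ D ∈ N, (XD T L D).card
        ≤ ∑ D ∈ N, ((Trip T).filter fun t => (4 * t.1 * t.2.2 - t.2.1 ^ 2).toNat = D).card := by
          refine Finset.sum_le_sum fun D _ => ?_
          rw [XD]
          refine Finset.card_image_le.trans (Finset.card_le_card ?_)
          intro t ht
          obtain ⟨h0, h1⟩ := Finset.mem_filter.1 ht
          exact Finset.mem_filter.2 ⟨h0, h1.2.2.2.1⟩
      _ ≤ (Trip T).card := by
          simp only [Finset.card_eq_sum_ones]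
          exact Finset.sum_fiberwise_le_sum_of_sum_fiber_nonneg fun _ _ => Nat.zero_le _
  exact_mod_cast h1

theorem mem_XD {T : ℝ} (L : Set ℂ) {τ : ℂ} (hL : τ ∈ L) (hq : Quad T τ) : ∃ D : ℕ, 0 < D ∧
    (D : ℝ) ≤ (2 * T) ^ 2 ∧ τ ∈ XD T L D ∧ ∃ a b : ℤ, τ = (-b + sq D) / (2 * a) := by
  classical
  obtain ⟨him, a, b, c, ha, haT, hbT, hcT, h⟩ := hq
  obtain ⟨a', b', c', D, h1, h2, h3, h4, h5, h6, h7, h8⟩ := root_form ha him h
  have e : ∀ x y : ℤ, |x| = |y| → |(y : ℝ)| ≤ T → |(x : ℝ)| ≤ T := by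
    intro x y hxy hy
    have : |(x : ℝ)| = |(y : ℝ)| := by exact_mod_cast congrArg (fun z : ℤ => (z : ℝ)) hxy
    rw [this]
    exact hy
  have haT' := e _ _ h2 haT
  have hbT' := e _ _ h3 hbT
  have hcT' := e _ _ h4 hcT
  have hD : (D : ℝ) ≤ (2 * T) ^ 2 := by
    have h9 : (D : ℝ) = 4 * a' * c' - b' ^ 2 := by exact_mod_cast congrArg (fun z : ℤ => (z : ℝ)) h6
    rw [h9]
    have h10 : (a' : ℝ) * c' ≤ T * T := by
      refine (le_abs_self _).trans ?_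
      rw [abs_mul]
      exact mul_le_mul haT' hcT' (abs_nonneg _) ((abs_nonneg _).trans haT')
    nlinarith [sq_nonneg (b' : ℝ)]
  have hDn : (4 * a' * c' - b' ^ 2).toNat = D := by
    rw [← h6]
    exact Int.toNat_natCast D
  have hr : root (a', b', c') = τ := by
    rw [root]
    simp only
    rw [hDn, h7]
  refine ⟨D, h5, hD, ?_, a', b', by rw [h7]⟩
  rw [XD, Finset.mem_image]
  refine ⟨(a', b', c'), Finset.mem_filter.2 ⟨mem_Trip haT' hbT' hcT', h1, haT', hbT', hDn, hD, ?_⟩, hr⟩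
  rw [hr]
  exact hL

theorem sum_MgR {n : ℕ} (T : ℝ) (hT : 1 ≤ T) (L : Fin n → Set ℂ) (N : Finset ℕ) (hN : (N.card : ℝ) ≤ 4 * T ^ 2) :
    ∑ D ∈ Fintype.piFinset (fun _ : Fin n => N), MgR (fun j => XD T (L j) (D j)) ≤
      n * (4 * T ^ 2 * (27 * T ^ 3) ^ (n - 1)) := by
  classical
  simp only [MgR]
  rw [Finset.sum_comm]
  have h1 : ∀ j : Fin n, ∑ D ∈ Fintype.piFinset (fun _ : Fin n => N),
      ∏ i, (if i = j then (1 : ℝ) else ((XD T (L i) (D i)).card : ℝ)) ≤ 4 * T ^ 2 * (27 * T ^ 3) ^ (n - 1) := by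
    intro j
    rw [← Finset.prod_univ_sum (fun _ : Fin n => N)
      (fun i D => if i = j then (1 : ℝ) else ((XD T (L i) D).card : ℝ))]
    rw [← Finset.mul_prod_erase Finset.univ _ (Finset.mem_univ j)]
    have e1 : ∑ D ∈ N, (if j = j then (1 : ℝ) else ((XD T (L j) D).card : ℝ)) ≤ 4 * T ^ 2 := by
      simpa using hN
    have e2 : ∏ i ∈ Finset.univ.erase j, ∑ D ∈ N, (if i = j then (1 : ℝ) else ((XD T (L i) D).card : ℝ)) ≤
        (27 * T ^ 3) ^ (n - 1) := by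
      have e3 : (27 * T ^ 3 : ℝ) ^ (n - 1) = ∏ _i ∈ Finset.univ.erase j, (27 * T ^ 3 : ℝ) := by
        rw [Finset.prod_const, Finset.card_erase_of_mem (Finset.mem_univ j), Finset.card_univ, Fintype.card_fin]
      rw [e3]
      refine Finset.prod_le_prod (fun i _ => Finset.sum_nonneg fun D _ => ?_) fun i hi => ?_
      · split
        · exact zero_le_one
        · exact Nat.cast_nonneg _
      · have hij := Finset.ne_of_mem_erase hi
        simp only [if_neg hij]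
        exact sum_XD T hT (L i) N
    refine mul_le_mul e1 e2 (Finset.prod_nonneg fun i _ => Finset.sum_nonneg fun D _ => ?_) (by positivity)
    split
    · exact zero_le_one
    · exact Nat.cast_nonneg _
  refine (Finset.sum_le_sum fun j _ => h1 j).trans ?_
  rw [Finset.sum_const, Finset.card_univ, Fintype.card_fin, nsmul_eq_mul]

end Pool.Agent.Q192.QD
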