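import Pool.Agent.Y776.Cv.Fix
import Pool.Agent.Y776.AxJ.Alg

/-!
# Exponentials of analytic functions: all functions of a basis are independent
-/

set_option autoImplicit false

open Filter Topology Set
open scoped PeriodPair

noncomputable section

namespace Pool.Agent.Q192.QD

open Pool.Agent.Y776.Cv Pool.Agent.Y776.Fam Pool.Agent.Y685
open Pool.Agent.TH813.Rel (DF MK rk_le_of_subset_cl)
open Pool.Agent.Y124 (LocInd)

/-- the closure contains the zeros of polynomials with coefficients in it -/
theorem clo_root {C : IntermediateField ℚ ℂ} {S : Set ℂ} {y : ℂ} : ∀ (n : ℕ) (q : Polynomial ℂ),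
    q.natDegree ≤ n → q ≠ 0 → (∀ i, q.coeff i ∈ clo C S) → q.eval y = 0 → y ∈ clo C S := by
  intro n
  induction n with
  | zero =>
    intro q hq h0 _ hy
    exfalso
    rw [Polynomial.eq_C_of_natDegree_le_zero hq, Polynomial.eval_C] at hy
    apply h0
    rw [Polynomial.eq_C_of_natDegree_le_zero hq, hy, Polynomial.C_0]
  | succ n ih =>
    intro q hq h0 hc hy
    by_cases hd : q.derivative.eval y = 0
    · refine ih q.derivative ((Polynomial.natDegree_derivative_le q).trans (by omega)) ?_ (fun i => ?_) hd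
      · intro hz
        have h1 := Polynomial.derivative_eq_zero.1 hz
        rw [Polynomial.eq_C_of_natDegree_eq_zero h1, Polynomial.eval_C] at hy
        apply h0
        rw [Polynomial.eq_C_of_natDegree_eq_zero h1, hy, Polynomial.C_0]
      · rw [Polynomial.coeff_derivative]
        exact mul_mem (hc _) (add_mem (natCast_mem _ _) (one_mem _))
    · intro δ hδ hS
      have h1 : δ (q.eval y) = q.derivative.eval y * δ y := by
        rw [Polynomial.eval_eq_sum_range, map_sum, Polynomial.derivative_eval,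
          Polynomial.sum_over_range _ (by intro n; simp), Finset.sum_mul]
        refine Finset.sum_congr rfl fun i _ => ?_
        rw [Derivation.leibniz, hc i δ hδ hS, smul_zero, add_zero, Derivation.leibniz_pow]
        simp only [smul_eq_mul, nsmul_eq_mul]
        ring
      rw [hy, map_zero] at h1
      exact (mul_eq_zero.1 h1.symm).resolve_left hd

/-- the values of polynomials -/
theorem eval_clo {C F : IntermediateField ℚ ℂ} {S : Set ℂ} (hFC : ∀ x ∈ F, x ∈ clo C S) {σ : Type} [Fintype σ]
    (P : MvPolynomial σ ℂ) (hP : ∀ m, P.coeff m ∈ F) (v : σ → ℂ) (hv : ∀ i, v i ∈ clo C S) :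
    MvPolynomial.eval v P ∈ clo C S := by
  classical
  rw [MvPolynomial.eval_eq']
  exact sum_mem fun m _ => mul_mem (hFC _ (hP m)) (prod_mem fun i _ => pow_mem (hv i) _)

/-- `f` is algebraic over the field generated by the constants, `z` and the functions `h b` -/
def AlgOv (U : Set ℂ) {κ : Type} (h : κ → ℂ → ℂ) (f : ℂ → ℂ) : Prop :=
  ∃ Q : Polynomial (MvPolynomial (Option κ) ℂ),
    (∃ a ∈ U, Q.map (MvPolynomial.eval fun o : Option κ => o.elim a fun b => h b a) ≠ 0) ∧
    ∀ a ∈ U, (Q.map (MvPolynomial.eval fun o : Option κ => o.elim a fun b => h b a)).eval (f a) = 0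

/-- the functions with their exponentials -/
def yE {s : ℕ} (l : Fin s → ℂ → ℂ) : Fin s ⊕ Fin s → ℂ → ℂ :=
  Sum.elim l (fun k z => Complex.exp (l k z))

/-- a basis of the field of the `z_i`, `exp z_i` over `ℂ (z)` which has as many elements as there are functions `z_i` is
independent -/
theorem expAll {U : Set ℂ} {s : ℕ} (hs : 0 < s) (hU : IsOpen U) (hc : IsPreconnected U) (hne : U.Nonempty)
    {l : Fin s → ℂ → ℂ} (la : ∀ k, AnalyticOnNhd ℂ (l k) U) (li : IndC U l) {κ : Type} [Fintype κ]
    (hκ : Fintype.card κ = s) {y : κ → ℂ → ℂ} (hy : ∀ k, AnalyticOnNhd ℂ (y k) U)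
    (hal : ∀ o, AlgOv U y (yE l o)) : ∀ t ∈ U, LocInd y t := by
  classical
  have h : FxM (q := 0) (n := 0) U (fun c => c.elim0) (fun i => i.elim0) (fun i => i.elim0) l :=
    { isOpen := hU, conn := hc, ni := fun c => c.elim0, ua := fun i => i.elim0, un := fun i => i.elim0
      ui := fun c => c.elim0, la := la, li := li }
  choose Q hQ0 hQ using hal
  choose a₀ ha₀ hne₀ using hQ0
  have hex : ∀ o, ∃ i, MvPolynomial.eval (fun p : Option κ => p.elim (a₀ o) fun b => y b (a₀ o))
      ((Q o).coeff i) ≠ 0 := by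
    intro o
    by_contra hcon
    push Not at hcon
    apply hne₀ o
    ext i
    rw [Polynomial.coeff_map, Polynomial.coeff_zero]
    exact hcon i
  choose i₀ hi₀ using hex
  have hZ : (⋃ o, {z | z ∈ U ∧ MvPolynomial.eval (fun p : Option κ => p.elim z fun b => y b z)
      ((Q o).coeff (i₀ o)) = 0}).Countable := by
    refine Set.countable_iUnion fun o => countable_zeros hc ?_ ⟨a₀ o, ha₀ o, hi₀ o⟩
    intro z hz
    have e1 : (fun z => MvPolynomial.eval (fun p : Option κ => p.elim z fun b => y b z) ((Q o).coeff (i₀ o))) =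
        fun z => ∑ e ∈ ((Q o).coeff (i₀ o)).support, ((Q o).coeff (i₀ o)).coeff e *
          ∏ p : Option κ, (p.elim z fun b => y b z) ^ e p := by
      funext z
      rw [MvPolynomial.eval_eq']
    rw [e1]
    refine Finset.analyticAt_fun_sum _ fun e _ => analyticAt_const.mul ?_
    refine Finset.analyticAt_fun_prod _ fun p _ => AnalyticAt.fun_pow ?_ _
    cases p with
    | none => exact analyticAt_id
    | some b => exact hy b z hz
  obtain ⟨zs, hzs⟩ := hne
  obtain ⟨F, hFc, hF⟩ := exists_cf
    (T := TS y zs ∪ ⋃ o, ⋃ i, (((Q o).coeff i).coeffs : Set ℂ))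
    ((TS_countable _ _).union (Set.countable_iUnion fun o => Set.countable_iUnion fun i =>
      Set.Finite.countable (Finset.finite_toSet _)))
  obtain ⟨z₀, hz₀, hnot⟩ := exists_notMem hU ⟨zs, hzs⟩ ((countable_Gp h hFc ⟨zs, hzs⟩).union hZ)
  have g : Gp U (fun c : Fin 0 => (c.elim0 : PeriodPair)) (fun i : Fin 0 => (i.elim0 : Fin 0))
      (fun i : Fin 0 => (i.elim0 : ℂ → ℂ)) l F z₀ := by
    by_contra hcon
    exact hnot (Or.inl ⟨hz₀, hcon⟩)
  have hr := rank_Gp h (by omega) (fun c => c.elim0) (fun c => c.elim0) g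
  have hcoef : ∀ o i m, ((Q o).coeff i).coeff m ∈ F := by
    intro o i m
    by_cases hm : ((Q o).coeff i).coeff m = 0
    · rw [hm]
      exact zero_mem _
    · exact hF (Or.inr (Set.mem_iUnion.2 ⟨o, Set.mem_iUnion.2 ⟨i, MvPolynomial.coeff_mem_coeffs m hm⟩⟩))
  have hall : ∀ o, yE l o z₀ ∈ clo F (insert z₀ (Set.range fun k => y k z₀)) := by
    intro o
    refine clo_root _ ((Q o).map (MvPolynomial.eval fun p : Option κ => p.elim z₀ fun b => y b z₀)) le_rfl
      ?_ (fun i => ?_) (hQ o z₀ hz₀)
    · intro h0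
      apply hnot
      refine Or.inr (Set.mem_iUnion.2 ⟨o, hz₀, ?_⟩)
      rw [← Polynomial.coeff_map, h0, Polynomial.coeff_zero]
    · rw [Polynomial.coeff_map]
      refine eval_clo (fun x hx => base_clo hx) _ (hcoef o i) _ ?_
      rintro (_ | b)
      · exact subset_clo (Set.mem_insert _ _)
      · exact subset_clo (Set.mem_insert_of_mem _ ⟨b, rfl⟩)
  obtain ⟨e, he, hL⟩ := Pool.Agent.Y776.Cv.exists_sub (N := s) hc hU hy hzs
    (fun x hx => hF (Or.inl hx)) hz₀ g.tr
    (hr.trans (rk_le_of_subset_cl (by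
      rintro _ ⟨k, rfl⟩
      rw [← mem_clo_iff]
      rcases k with k | k | k | k | k
      · exact hall (Sum.inl k)
      · exact hall (Sum.inr k)
      · exact k.elim0
      · exact k.elim0
      · exact k.elim0)))
  have hb : Function.Bijective e :=
    (Fintype.bijective_iff_injective_and_card e).2 ⟨he, by rw [Fintype.card_fin, hκ]⟩
  exact fun t ht => Pool.Agent.Y776.AxJ.locInd_equiv (Equiv.ofBijective e hb) (hL t ht)

end Pool.Agent.Q192.QD
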