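import Pool.Agent.Y124.NFW

/-!
# Tuples of points of different number fields; the compositum of quadratic fields
-/

set_option autoImplicit false

open Finset NumberField Module

namespace Pool.Agent.Q192.QD

open Pool.Agent.Y120 (NormRing Pt RK RK_norm gK HtLe Pt_of_HtLe house_le house_ge)
open Pool.Agent.Y124 (OneV MgR multiR mgR RelK RelR_mono RelR_of_RelK gK_lt)

/-- tuples of points, in arbitrary finite sets of points of the number field -/
theorem nfX (m n : ℕ) {κ : Type} [Fintype κ] [DecidableEq κ] (v : Fin n → ℂ → κ → ℂ) (L : Fin n → Set ℂ)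
    (hv : ∀ g j, OneV g (fun R T => {t | t ∈ L j ∧ Pt R T t}) (v j))
    (h : Type) [Fintype h] [DecidableEq h] (d : ℕ) (A ε : ℝ) (hε : 0 < ε) :
    ∃ B C T₀ : ℝ, 0 ≤ B ∧ 0 ≤ C ∧ 2 ≤ T₀ ∧ ∀ (K : Type) [Field K] [NumberField K], finrank ℚ K ≤ m →
      ∀ (io : K →+* ℂ) (ξ : h → ℂ) (T : ℝ), T₀ ≤ T → ∀ X : Fin n → Finset ℂ,
      (∀ j, ∀ x ∈ X j, x ∈ L j ∧ ∃ t : K, io t = x ∧ HtLe K T t) → ∀ Y ⊆ Fintype.piFinset X,
      (∀ x ∈ Y, RelK K io ξ (fun e : Fin n → κ → Fin (d + 1) => mgR v x e) (T ^ A) (T ^ (-B))) →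
      (Y.card : ℝ) ≤ C * T ^ ε * MgR X := by
  classical
  have hg := fun g : ℕ => multiR g n (fun j R T => {t | t ∈ L j ∧ Pt R T t}) v (fun j => hv g j) h d A ε hε
  choose B C T2 hB hC hT2 H using hg
  refine ⟨∑ g ∈ range m, B g, ∑ g ∈ range m, C g, 2 + ∑ g ∈ range m, T2 g, ?_, ?_, ?_, ?_⟩
  · exact Finset.sum_nonneg fun g _ => hB g
  · exact Finset.sum_nonneg fun g _ => (hC g).le
  · have : 0 ≤ ∑ g ∈ range m, T2 g := Finset.sum_nonneg fun g _ => by linarith [hT2 g]
    linarith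
  intro K _ _ hm io ξ T hT X hX Y hY hrel
  set g := gK K with hg
  have hgm : g ∈ range m := Finset.mem_range.2 (gK_lt K hm)
  have hTT : T2 g ≤ T := by
    have h1 := Finset.single_le_sum (f := T2) (fun g _ => by linarith [hT2 g]) hgm
    linarith
  have hBB : B g ≤ ∑ g ∈ range m, B g := Finset.single_le_sum (f := B) (fun g _ => hB g) hgm
  have hCC : C g ≤ ∑ g ∈ range m, C g := Finset.single_le_sum (f := C) (fun g _ => (hC g).le) hgm
  have hT1 : 1 ≤ T := by linarith [hT2 g]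
  have h1 := H g T hTT (RK K io) (RK_norm K io) ξ X (by
    intro j x hx
    obtain ⟨hx1, t, rfl, ht⟩ := hX j x hx
    exact ⟨hx1, Pt_of_HtLe K io ht⟩) Y hY (by
    intro y hy
    refine RelR_mono (Real.rpow_le_rpow_of_exponent_le hT1 (neg_le_neg hBB)) ?_
    exact RelR_of_RelK K io ξ _ _ _ (hrel y hy))
  refine h1.trans ?_
  have hM : 0 ≤ MgR X := Finset.sum_nonneg fun j _ => Finset.prod_nonneg fun i _ => by
    split
    · exact zero_le_one
    · exact Nat.cast_nonneg _
  have hTε : 0 ≤ T ^ ε := (Real.rpow_pos_of_pos (by linarith) _).le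
  exact mul_le_mul_of_nonneg_right (mul_le_mul_of_nonneg_right hCC hTε) hM

/-- `i √D` -/
noncomputable def sq (D : ℕ) : ℂ := Complex.I * ((Real.sqrt D : ℝ) : ℂ)

theorem sq_sq (D : ℕ) : sq D ^ 2 = -(D : ℂ) := by
  have h : ((Real.sqrt D : ℝ) : ℂ) ^ 2 = (D : ℂ) := by
    rw [← Complex.ofReal_pow, Real.sq_sqrt (Nat.cast_nonneg D)]
    norm_cast
  rw [sq, mul_pow, Complex.I_sq, h]
  ring

theorem sq_int (D : ℕ) : IsIntegral ℤ (sq D) := by
  refine ⟨Polynomial.X ^ 2 + Polynomial.C (D : ℤ), ?_, ?_⟩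
  · exact Polynomial.monic_X_pow_add_C _ two_ne_zero
  · simp [sq_sq]

theorem sq_intQ (D : ℕ) : IsIntegral ℚ (sq D) := (sq_int D).tower_top

theorem finrank_sq (D : ℕ) : finrank ℚ (IntermediateField.adjoin ℚ {sq D}) ≤ 2 := by
  rw [IntermediateField.adjoin.finrank (sq_intQ D)]
  have h1 : minpoly ℚ (sq D) ∣ Polynomial.X ^ 2 + Polynomial.C (D : ℚ) := by
    apply minpoly.dvd
    simp [sq_sq]
  have h2 : (Polynomial.X ^ 2 + Polynomial.C (D : ℚ)).Monic := Polynomial.monic_X_pow_add_C _ two_ne_zero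
  refine (Polynomial.natDegree_le_of_dvd h1 h2.ne_zero).trans ?_
  exact (Polynomial.natDegree_X_pow_add_C).le

/-- the compositum of the fields `ℚ(√-D_j)` -/
noncomputable def KD {n : ℕ} (D : Fin n → ℕ) : IntermediateField ℚ ℂ :=
  ⨆ j, IntermediateField.adjoin ℚ {sq (D j)}

theorem sq_mem {n : ℕ} (D : Fin n → ℕ) (j : Fin n) : sq (D j) ∈ KD D := by
  have h1 : IntermediateField.adjoin ℚ {sq (D j)} ≤ KD D :=
    le_iSup (fun j => IntermediateField.adjoin ℚ {sq (D j)}) j
  exact h1 (IntermediateField.mem_adjoin_simple_self ℚ _)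

theorem KD_aux : ∀ (n : ℕ) (D : Fin n → ℕ), FiniteDimensional ℚ (KD D) ∧ finrank ℚ (KD D) ≤ 2 ^ n := by
  intro n
  induction n with
  | zero =>
    intro D
    have h1 : KD D = ⊥ := by
      rw [KD, iSup_of_empty]
    rw [h1]
    exact ⟨(IntermediateField.botEquiv ℚ ℂ).symm.toLinearEquiv.finiteDimensional, by
      rw [IntermediateField.finrank_bot]; norm_num⟩
  | succ n ih =>
    intro D
    have h1 : KD D = IntermediateField.adjoin ℚ {sq (D 0)} ⊔ KD (fun j => D j.succ) := by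
      rw [KD, KD]
      apply le_antisymm
      · refine iSup_le fun j => ?_
        refine Fin.cases ?_ (fun i => ?_) j
        · exact le_sup_left
        · exact (le_iSup (fun j : Fin n => IntermediateField.adjoin ℚ {sq (D j.succ)}) i).trans le_sup_right
      · refine sup_le (le_iSup (fun j => IntermediateField.adjoin ℚ {sq (D j)}) 0) (iSup_le fun i => ?_)
        exact le_iSup (fun j => IntermediateField.adjoin ℚ {sq (D j)}) i.succ
    obtain ⟨h2, h3⟩ := ih fun j => D j.succ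
    have h4 : FiniteDimensional ℚ (IntermediateField.adjoin ℚ {sq (D 0)}) :=
      IntermediateField.adjoin.finiteDimensional (sq_intQ _)
    rw [h1]
    refine ⟨IntermediateField.finiteDimensional_sup _ _, ?_⟩
    refine (IntermediateField.finrank_sup_le _ _).trans ?_
    rw [pow_succ, mul_comm]
    exact Nat.mul_le_mul h3 (finrank_sq _)

instance {n : ℕ} (D : Fin n → ℕ) : FiniteDimensional ℚ (KD D) := (KD_aux n D).1

instance {n : ℕ} (D : Fin n → ℕ) : NumberField (KD D) where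
  to_charZero := inferInstance
  to_finiteDimensional := inferInstance

theorem finrank_KD {n : ℕ} (D : Fin n → ℕ) : finrank ℚ (KD D) ≤ 2 ^ n := (KD_aux n D).2

/-- the root in the upper half-plane -/
theorem root_form {a b c : ℤ} {τ : ℂ} (ha : a ≠ 0) (hτ : 0 < τ.im) (h : (a : ℂ) * τ ^ 2 + b * τ + c = 0) :
    ∃ (a' b' c' : ℤ) (D : ℕ), 0 < a' ∧ |a'| = |a| ∧ |b'| = |b| ∧ |c'| = |c| ∧ 0 < D ∧
      (D : ℤ) = 4 * a' * c' - b' ^ 2 ∧ τ = (-b' + sq D) / (2 * a') ∧
      (a' : ℂ) * τ ^ 2 + b' * τ + c' = 0 := by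
  have main : ∀ a b c : ℤ, 0 < a → (a : ℂ) * τ ^ 2 + b * τ + c = 0 → ∃ D : ℕ, 0 < D ∧
      (D : ℤ) = 4 * a * c - b ^ 2 ∧ τ = (-b + sq D) / (2 * a) := by
    intro a b c ha h
    have haR : (0 : ℝ) < a := by exact_mod_cast ha
    set w : ℂ := 2 * a * τ + b with hw
    have hw2 : w ^ 2 = ((b ^ 2 - 4 * a * c : ℤ) : ℂ) := by
      push_cast
      rw [hw]
      linear_combination (4 * (a : ℂ)) * h
    have him : w.im = 2 * a * τ.im := by
      rw [hw]
      simp [Complex.mul_im]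
    have himpos : 0 < w.im := by
      rw [him]
      positivity
    have h2 : (w ^ 2).im = 0 := by
      rw [hw2]
      exact Complex.intCast_im _
    have h3 : w.re = 0 := by
      rw [pow_two, Complex.mul_im] at h2
      have h2 : 2 * w.re * w.im = 0 := by linarith
      rcases mul_eq_zero.1 h2 with h4 | h4
      · rcases mul_eq_zero.1 h4 with h5 | h5
        · norm_num at h5
        · exact h5
      · exact absurd h4 himpos.ne'
    have h4 : ((4 * a * c - b ^ 2 : ℤ) : ℝ) = w.im ^ 2 := by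
      have h5 := congrArg Complex.re hw2
      rw [pow_two, Complex.mul_re, h3] at h5
      have h6 : (((b ^ 2 - 4 * a * c : ℤ) : ℂ)).re = ((b ^ 2 - 4 * a * c : ℤ) : ℝ) :=
        Complex.intCast_re _
      rw [h6] at h5
      push_cast at h5 ⊢
      nlinarith [h5]
    have h5 : 0 < 4 * a * c - b ^ 2 := by
      have : (0 : ℝ) < ((4 * a * c - b ^ 2 : ℤ) : ℝ) := by
        rw [h4]
        positivity
      exact_mod_cast this
    obtain ⟨D, hD⟩ := Int.eq_ofNat_of_zero_le h5.le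
    refine ⟨D, ?_, hD.symm, ?_⟩
    · have : (0 : ℤ) < D := by rw [← hD]; exact h5
      exact_mod_cast this
    · have h6 : w.im = Real.sqrt D := by
        have h7 : ((D : ℕ) : ℝ) = w.im ^ 2 := by
          rw [← h4, hD]
          norm_cast
        rw [h7, Real.sqrt_sq himpos.le]
      have h7 : w = sq D := by
        rw [sq, ← h6]
        apply Complex.ext
        · simp [h3]
        · simp
      have h8 : (2 * a : ℂ) ≠ 0 := by
        have : (a : ℂ) ≠ 0 := by exact_mod_cast ha.ne'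
        exact mul_ne_zero two_ne_zero this
      rw [eq_div_iff h8, ← h7, hw]
      ring
  rcases lt_or_gt_of_ne ha with hneg | hpos
  · have h' : ((-a : ℤ) : ℂ) * τ ^ 2 + ((-b : ℤ) : ℂ) * τ + ((-c : ℤ) : ℂ) = 0 := by
      push_cast
      linear_combination -h
    obtain ⟨D, h1, h2, h3⟩ := main (-a) (-b) (-c) (by omega) h'
    exact ⟨-a, -b, -c, D, by omega, abs_neg a, abs_neg b, abs_neg c, h1, h2, h3, h'⟩
  · obtain ⟨D, h1, h2, h3⟩ := main a b c hpos h
    exact ⟨a, b, c, D, hpos, rfl, rfl, rfl, h1, h2, h3, h⟩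

end Pool.Agent.Q192.QD
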