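import Pool.Agent.Y776.Cv.Fix
import Pool.Agent.Y776.AxJ.Alg

/-!
# Curves in the Lie algebra of a product of elliptic curves and a torus: all functions of a subfamily are independent
-/

set_option autoImplicit false

open Filter Topology Set
open scoped PeriodPair

noncomputable section

namespace Pool.Agent.Q192.QD

open Pool.Agent.Y776.Cv Pool.Agent.Y776.Fam Pool.Agent.Y685
open Pool.Agent.TH813.Rel (DF MK rk_le_of_subset_cl)
open Pool.Agent.Y124 (LocInd)

/-- if the field of the curve is algebraic over `z` and `2 n + s` functions, these are independent -/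
theorem fixAll {U : Set ℂ} {n s q : ℕ} {Λ : Fin q → PeriodPair} {ty : Fin n → Fin q} {u : Fin n → ℂ → ℂ}
    {l : Fin s → ℂ → ℂ} (h : FxM U Λ ty u l) (hns : 0 < s + n) (hne : U.Nonempty) {κ : Type} [Fintype κ]
    {y : κ → ℂ → ℂ} (hy : ∀ k, AnalyticOnNhd ℂ (y k) U) (hκ : Fintype.card κ = s + 2 * n) {G : Set ℂ}
    (hG : G.Countable)
    (hsub : ∀ F : IntermediateField ℚ ℂ, G ⊆ F → ∀ z ∈ U, ¬ IsAlgebraic F z → ∀ k,
      yf Λ ty u l k z ∈ clo F (insert z (Set.range fun k => y k z))) :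
    ∀ t ∈ U, LocInd y t := by
  classical
  obtain ⟨zs, hzs⟩ := hne
  obtain ⟨F, hFc, hF⟩ := exists_cf
    (T := (TS y zs ∪ G) ∪ (Set.range (fun c => (Λ c).g₂) ∪ Set.range (fun c => (Λ c).g₃)))
    (((TS_countable _ _).union hG).union ((Set.countable_range _).union (Set.countable_range _)))
  obtain ⟨z₀, hz₀, hnot⟩ := exists_notMem h.isOpen ⟨zs, hzs⟩ (countable_Gp h hFc ⟨zs, hzs⟩)
  have g : Gp U Λ ty u l F z₀ := by
    by_contra hcon
    exact hnot ⟨hz₀, hcon⟩
  have hr := rank_Gp h hns (fun c => hF (Or.inr (Or.inl ⟨c, rfl⟩)))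
    (fun c => hF (Or.inr (Or.inr ⟨c, rfl⟩))) g
  obtain ⟨e, he, hL⟩ := Pool.Agent.Y776.Cv.exists_sub (N := s + 2 * n) h.conn h.isOpen hy hzs
    (fun x hx => hF (Or.inl (Or.inl hx))) hz₀ g.tr
    (hr.trans (rk_le_of_subset_cl (by
      rintro _ ⟨k, rfl⟩
      rw [← mem_clo_iff]
      exact hsub F (fun x hx => hF (Or.inl (Or.inr hx))) z₀ hz₀ g.tr k)))
  have hb : Function.Bijective e :=
    (Fintype.bijective_iff_injective_and_card e).2 ⟨he, by rw [Fintype.card_fin, hκ]⟩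
  exact fun t ht => Pool.Agent.Y776.AxJ.locInd_equiv (Equiv.ofBijective e hb) (hL t ht)

end Pool.Agent.Q192.QD
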