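import Pool.Agent.Y120.K.WinI

/-!
# From relations between points of isogeny classes to relations between the points
-/

set_option autoImplicit false

open Pool.Agent.Y120.J Pool.Agent.Y120.K
open Pool.Agent.TH21.MS (jj)

namespace Pool.Agent.Q192.QD

theorem iso_step {q k : ℕ} {K : IntermediateField ℚ ℂ} {δ : ℕ} (w : Fin q → ℂ) (v : Fin k → UpperHalfPlane)
    (z : Fin k → ℂ)
    (hz : ∀ i, ∃ a b c d : ℚ, a * d - b * c ≠ 0 ∧ z i = ((a : ℂ) * v i + b) / ((c : ℂ) * v i + d))
    (P : MvPolynomial (Option (Fin q) ⊕ Fin k) K) (hP : P.totalDegree ≤ δ)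
    (hP0 : MvPolynomial.aeval (Sum.elim (wo w) z) P = 0) (hne : ∃ u, MvPolynomial.aeval (Sum.elim (wo w) u) P ≠ 0) :
    ∃ P' : MvPolynomial (Option (Fin q) ⊕ Fin k × Fin 3) K,
      P'.totalDegree ≤ Fintype.card (Option (Fin q)) * (δ * 1) + Fintype.card (Fin k) * (δ * 1) ∧
      MvPolynomial.aeval (Sum.elim (wo w) fun x : Fin k × Fin 3 => jt (v x.1) x.2) P' = 0 ∧
      ∃ u, MvPolynomial.aeval (Sum.elim (wo w) u) P' ≠ 0 := by
  classical
  choose g hg using fun i => toM4 (hz i)
  have hdet : ∀ i, ((g i).a : ℂ) * (g i).d - (g i).b * (g i).c ≠ 0 := fun i => by exact_mod_cast (g i).det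
  have hden : ∀ i, ((g i).c : ℂ) * (v i : ℂ) + (g i).d ≠ 0 := by
    intro i h0
    have h1 := hg i
    rw [h0, mul_zero] at h1
    have h2 := hdet i
    by_cases hc : ((g i).c : ℂ) = 0
    · rw [hc, zero_mul, zero_add] at h0
      apply h2
      rw [hc, h0]
      ring
    · apply h2
      have h3 : ((g i).c : ℂ) * (((g i).a : ℂ) * (g i).d - (g i).b * (g i).c) = 0 := by
        linear_combination ((g i).a : ℂ) * (g i).c * h0 + ((g i).c : ℂ) ^ 2 * h1
      exact (mul_eq_zero.1 h3).resolve_left hc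
  set P' := clr δ (fun o => (MvPolynomial.X (Sum.inl o) : MvPolynomial (Option (Fin q) ⊕ Fin k × Fin 3) K))
    (fun i => lin K q (g i).a (g i).b i) (fun i => lin K q (g i).c (g i).d i) P with hP'
  have hdeg : P'.totalDegree ≤ Fintype.card (Option (Fin q)) * (δ * 1) + Fintype.card (Fin k) * (δ * 1) :=
    clr_deg hP (fun a => dX _) (fun b => lin_deg _ _ _) fun b => lin_deg _ _ _
  refine ⟨P', hdeg, ?_, ?_⟩
  · rw [hP', clr_eval hP _ fun i => by
      rw [lin_eval, Sum.elim_inr]
      exact hden i]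
    refine mul_eq_zero_of_right _ ?_
    rw [← hP0]
    congr 2
    funext o
    rcases o with o | i
    · rw [Sum.elim_inl, Sum.elim_inl, MvPolynomial.aeval_X, Sum.elim_inl]
    · rw [Sum.elim_inr, Sum.elim_inr, lin_eval, lin_eval, Sum.elim_inr]
      show ((g i).a * (v i : ℂ) + (g i).b) / ((g i).c * (v i : ℂ) + (g i).d) = z i
      rw [← hg i, mul_div_assoc, div_self (hden i), mul_one]
  by_contra hcon
  push Not at hcon
  have hmain : ∀ u, MvPolynomial.aeval (Sum.elim (wo w) u) P' = 0 := hcon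
  have hkey : ∀ u : Fin k → ℂ, (∀ i, ((g i).a : ℂ) - (g i).c * u i ≠ 0) →
      MvPolynomial.aeval (Sum.elim (wo w) u) P = 0 := by
    intro u hu
    have h1 := hmain fun p => if p.2 = 0 then ((g p.1).d * u p.1 - (g p.1).b) / ((g p.1).a - (g p.1).c * u p.1) else 0
    have hM : ∀ i, ((g i).c : ℂ) * (((g i).d * u i - (g i).b) / ((g i).a - (g i).c * u i)) + (g i).d =
        (((g i).a : ℂ) * (g i).d - (g i).b * (g i).c) / ((g i).a - (g i).c * u i) := fun i => mo1 (hu i)
    have hN' : ∀ i, ((g i).a : ℂ) * (((g i).d * u i - (g i).b) / ((g i).a - (g i).c * u i)) + (g i).b =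
        (((g i).a : ℂ) * (g i).d - (g i).b * (g i).c) * u i / ((g i).a - (g i).c * u i) := fun i => mo2 (hu i)
    have hM0 : ∀ i, ((g i).c : ℂ) * (((g i).d * u i - (g i).b) / ((g i).a - (g i).c * u i)) + (g i).d ≠ 0 := by
      intro i
      rw [hM i]
      exact div_ne_zero (hdet i) (hu i)
    rw [hP', clr_eval hP _ fun i => by
      rw [lin_eval, Sum.elim_inr]
      simp only [if_true]
      exact hM0 i] at h1
    have h2 := (mul_eq_zero.1 h1).resolve_left (Finset.prod_ne_zero_iff.2 fun i _ => pow_ne_zero _ (by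
      rw [lin_eval, Sum.elim_inr]
      simp only [if_true]
      exact hM0 i))
    rw [← h2]
    congr 2
    funext o
    rcases o with o | i
    · rw [Sum.elim_inl, Sum.elim_inl, MvPolynomial.aeval_X, Sum.elim_inl]
    · rw [Sum.elim_inr, Sum.elim_inr, lin_eval, lin_eval, Sum.elim_inr]
      simp only [if_true]
      rw [hM i, hN' i]
      exact (mo3 (hu i) (hdet i)).symm
  have hfr : fr w P * ∏ i, (MvPolynomial.C ((g i).a : ℂ) - MvPolynomial.C ((g i).c : ℂ) * MvPolynomial.X i) = 0 := by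
    refine MvPolynomial.funext fun u => ?_
    rw [map_mul, map_zero, map_prod, fr_eval]
    by_cases hu : ∀ i, ((g i).a : ℂ) - (g i).c * u i ≠ 0
    · rw [hkey u hu, zero_mul]
    · push Not at hu
      obtain ⟨i, hi⟩ := hu
      refine mul_eq_zero_of_right _ (Finset.prod_eq_zero (Finset.mem_univ i) ?_)
      rw [map_sub, map_mul, MvPolynomial.eval_C, MvPolynomial.eval_C, MvPolynomial.eval_X]
      exact hi
  have hfr0 : fr w P = 0 := by
    refine (mul_eq_zero.1 hfr).resolve_right (Finset.prod_ne_zero_iff.2 fun i _ hi => ?_)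
    have h0 := congrArg (MvPolynomial.eval fun _ => (0 : ℂ)) hi
    have h1 := congrArg (MvPolynomial.eval fun _ => (1 : ℂ)) hi
    rw [map_sub, map_mul, MvPolynomial.eval_C, MvPolynomial.eval_C, MvPolynomial.eval_X, map_zero, mul_zero, sub_zero] at h0
    rw [map_sub, map_mul, MvPolynomial.eval_C, MvPolynomial.eval_C, MvPolynomial.eval_X, map_zero, mul_one, h0, zero_sub,
      neg_eq_zero] at h1
    apply hdet i
    rw [h0, h1]
    ring
  obtain ⟨u, hu⟩ := hne
  apply hu
  rw [← fr_eval, hfr0, map_zero]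

end Pool.Agent.Q192.QD
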