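import Pool.Agent.Q192.QD.Count

/-!
# The counting theorem for tuples of quadratic points
-/

set_option autoImplicit false

open Finset NumberField Module

namespace Pool.Agent.Q192.QD

open Pool.Agent.Y120 (NormRing Pt RK RK_norm gK HtLe Pt_of_HtLe house_le house_ge)
open Pool.Agent.Y124 (OneV MgR multiR mgR RelK RelR_mono RelR_of_RelK gK_lt relK_of_poly')

theorem quad_main {κ η : Type} [Fintype κ] [DecidableEq κ] [Fintype η] [DecidableEq η] (n d : ℕ)
    (v : Fin n → ℂ → κ → ℂ) (L : Fin n → Set ℂ)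
    (hv : ∀ g j, OneV g (fun R T => {t | t ∈ L j ∧ Pt R T t}) (v j)) (A ε : ℝ) (hε : 0 < ε) :
    ∃ B C T₀ : ℝ, ∀ (ξ : η → ℂ) (T : ℝ), T₀ ≤ T → ∀ E : Set (Fin n → ℂ),
      (∀ τ ∈ E, (∀ j, τ j ∈ L j ∧ Quad T (τ j)) ∧
        ∃ P : MvPolynomial (Fin n × κ) ℂ, (∀ x, P.degreeOf x ≤ d) ∧
        (∀ s, ∃ c : η → ℂ, (∀ i, SInt (Set.range τ) (T ^ A) (c i)) ∧ P.coeff s = ∑ i, ξ i * c i) ∧
        ∃ s₀, P.coeff s₀ ≠ 0 ∧
          ‖MvPolynomial.aeval (fun x : Fin n × κ => v x.1 (τ x.1) x.2) P‖ ≤ T ^ (-B) * ‖P.coeff s₀‖) →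
      E.Finite ∧ (E.ncard : ℝ) ≤ C * T ^ (3 * (n : ℝ) - 1 + ε) := by
  classical
  obtain ⟨B, C, T₀, hB, hC, hT₀, H⟩ := nfX (2 ^ n) n v L hv η d (max A 0) ε hε
  refine ⟨2 * B, C * 3 ^ ε * (n * (4 * 27 ^ (n - 1))), max T₀ 3, fun ξ T hT E hE => ?_⟩
  have hT3 : 3 ≤ T := (le_max_right _ _).trans hT
  have hT0 : T₀ ≤ T := (le_max_left _ _).trans hT
  have hTpos : 0 < T := by linarith
  have hT1 : 1 ≤ T := by linarith
  have h3T : T₀ ≤ 3 * T := by linarith
  have hHle : T ^ A ≤ (3 * T) ^ (max A 0) :=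
    (Real.rpow_le_rpow_of_exponent_le hT1 (le_max_left _ _)).trans
      (Real.rpow_le_rpow hTpos.le (by linarith) (le_max_right _ _))
  have hδle : T ^ (-(2 * B)) ≤ (3 * T) ^ (-B) := by
    have h1 : (3 * T) ^ B ≤ T ^ (2 * B) := by
      rw [Real.rpow_mul hTpos.le]
      refine Real.rpow_le_rpow (by positivity) ?_ hB
      rw [Real.rpow_two]
      nlinarith
    rw [Real.rpow_neg hTpos.le, Real.rpow_neg (by positivity)]
    exact inv_anti₀ (Real.rpow_pos_of_pos (by positivity) _) h1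
  set N : Finset ℕ := Finset.Icc 1 ⌊(2 * T) ^ 2⌋₊ with hN
  have hNc : (N.card : ℝ) ≤ 4 * T ^ 2 := by
    rw [hN, Nat.card_Icc, Nat.add_sub_cancel]
    refine (Nat.floor_le (by positivity)).trans (le_of_eq ?_)
    ring
  let io : ∀ D : Fin n → ℕ, KD D →+* ℂ := fun D => (KD D).val.toRingHom
  let Y : (Fin n → ℕ) → Finset (Fin n → ℂ) := fun D =>
    (Fintype.piFinset fun j => XD T (L j) (D j)).filter fun x =>
      RelK (KD D) (io D) ξ (fun e : Fin n → κ → Fin (d + 1) => mgR v x e) ((3 * T) ^ (max A 0)) ((3 * T) ^ (-B))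
  have hEsub : E ⊆ (((Fintype.piFinset fun _ : Fin n => N).biUnion Y : Finset (Fin n → ℂ)) : Set (Fin n → ℂ)) := by
    intro τ hτ
    obtain ⟨h1, P, hPd, hPc, s₀, hs₀, hs⟩ := hE τ hτ
    choose D hD0 hDT hDX a b hab using fun j => mem_XD (L j) (h1 j).1 (h1 j).2
    have hmem : ∀ j, τ j ∈ KD D := by
      intro j
      rw [hab j]
      exact div_mem (add_mem (neg_mem (intCast_mem _ _)) (sq_mem D j)) (mul_mem (ofNat_mem _ 2) (intCast_mem _ _))
    rw [Finset.mem_coe, Finset.mem_biUnion]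
    refine ⟨D, Fintype.mem_piFinset.2 fun j => ?_, Finset.mem_filter.2 ⟨Fintype.mem_piFinset.2 hDX, ?_⟩⟩
    · rw [hN, Finset.mem_Icc]
      exact ⟨hD0 j, Nat.le_floor (hDT j)⟩
    · refine relK_of_poly' (KD D) (io D) ξ v τ _ _ P hPd ?_ s₀ hs₀ ?_
      · intro s
        obtain ⟨c, hc1, hc2⟩ := hPc s
        choose x hx1 hx2 using fun i => sInt_KD D τ hmem (T ^ A) (c i) (hc1 i)
        refine ⟨x, fun i φ => (hx2 i φ).trans hHle, ?_⟩
        rw [hc2]
        refine Finset.sum_congr rfl fun i _ => ?_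
        rw [← hx1 i]
        rfl
      · refine hs.trans ?_
        exact mul_le_mul_of_nonneg_right hδle (norm_nonneg _)
  have hEf : E.Finite := (Finset.finite_toSet _).subset hEsub
  refine ⟨hEf, ?_⟩
  have h1 : (E.ncard : ℝ) ≤ ∑ D ∈ Fintype.piFinset (fun _ : Fin n => N), ((Y D).card : ℝ) := by
    have h2 := Set.ncard_le_ncard hEsub (Finset.finite_toSet _)
    rw [Set.ncard_coe_finset] at h2
    have h3 := h2.trans Finset.card_biUnion_le
    exact_mod_cast h3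
  have h2 : ∑ D ∈ Fintype.piFinset (fun _ : Fin n => N), ((Y D).card : ℝ) ≤
      ∑ D ∈ Fintype.piFinset (fun _ : Fin n => N), C * (3 * T) ^ ε * MgR (fun j => XD T (L j) (D j)) := by
    refine Finset.sum_le_sum fun D _ => ?_
    exact H (KD D) (finrank_KD D) (io D) ξ (3 * T) h3T (fun j => XD T (L j) (D j))
      (fun j x hx => XD_pt D T (L j) j hx) (Y D) (Finset.filter_subset _ _)
      fun x hx => (Finset.mem_filter.1 hx).2
  rw [← Finset.mul_sum] at h2
  have h3 := sum_MgR T hT1 L N hNc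
  have hpos : 0 ≤ C * (3 * T) ^ ε := mul_nonneg hC (Real.rpow_nonneg (by positivity) _)
  refine (h1.trans (h2.trans (mul_le_mul_of_nonneg_left h3 hpos))).trans (le_of_eq ?_)
  rcases Nat.eq_zero_or_pos n with hn | hn
  · subst hn
    simp
  · have e1 : T ^ (3 * (n : ℝ) - 1 + ε) = T ^ (3 * n - 1 : ℕ) * T ^ ε := by
      rw [Real.rpow_add hTpos, ← Real.rpow_natCast]
      congr 2
      push_cast [Nat.cast_sub (show 1 ≤ 3 * n by omega)]
      ring
    have e2 : (T ^ 2) * (T ^ 3) ^ (n - 1) = T ^ (3 * n - 1 : ℕ) := by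
      rw [← pow_mul, ← pow_add]
      congr 1
      omega
    rw [e1, ← e2, Real.mul_rpow (by norm_num) hTpos.le, mul_pow]
    ring

end Pool.Agent.Q192.QD
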