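import Pool.Agent.Q192.QD.Count

/-!
# There are at least `c T ^ 3` quadratic points of height at most `T` near a point of the upper half-plane
-/

set_option autoImplicit false

open Finset

namespace Pool.Agent.Q192.QD

/-- the greatest common divisor of a triple -/
def tg (t : ℤ × ℤ × ℤ) : ℕ := Nat.gcd t.1.natAbs (Nat.gcd t.2.1.natAbs t.2.2.natAbs)

theorem tg_mul (x : ℤ) (t : ℤ × ℤ × ℤ) : tg (x * t.1, x * t.2.1, x * t.2.2) = x.natAbs * tg t := by
  simp only [tg, Int.natAbs_mul, Nat.gcd_mul_left]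

/-- triples with the same root and the same divisor are equal -/
theorem root_inj {t t' : ℤ × ℤ × ℤ} {τ : ℂ} (hτ : 0 < τ.im) (h : (t.1 : ℂ) * τ ^ 2 + t.2.1 * τ + t.2.2 = 0)
    (h' : (t'.1 : ℂ) * τ ^ 2 + t'.2.1 * τ + t'.2.2 = 0) (ha : 0 < t.1) (ha' : 0 < t'.1) (hg : tg t = tg t') :
    t = t' := by
  obtain ⟨a, b, c⟩ := t
  obtain ⟨a', b', c'⟩ := t'
  simp only at h h' ha ha' hg ⊢
  have e1 : ((a' * b - a * b' : ℤ) : ℂ) * τ + ((a' * c - a * c' : ℤ) : ℂ) = 0 := by
    push_cast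
    linear_combination (a' : ℂ) * h - (a : ℂ) * h'
  have e2 : ((a' * b - a * b' : ℤ) : ℝ) = 0 := by
    have h1 := congrArg Complex.im e1
    rw [Complex.add_im, Complex.mul_im, Complex.intCast_re, Complex.intCast_im, Complex.intCast_im] at h1
    simp only [zero_mul, add_zero, Complex.zero_im] at h1
    rcases mul_eq_zero.1 h1 with h2 | h2
    · exact h2
    · exact absurd h2 hτ.ne'
  have e3 : a' * b = a * b' := by
    have : (a' * b - a * b' : ℤ) = 0 := by exact_mod_cast e2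
    linarith
  have e4 : a' * c = a * c' := by
    rw [show (a' * b - a * b' : ℤ) = 0 by linarith] at e1
    have : (a' * c - a * c' : ℤ) = 0 := by
      have h1 : ((a' * c - a * c' : ℤ) : ℂ) = 0 := by simpa using e1
      exact_mod_cast h1
    linarith
  have e5 : a'.natAbs * tg (a, b, c) = a.natAbs * tg (a', b', c') := by
    rw [← tg_mul, ← tg_mul]
    simp only
    rw [e3, e4, mul_comm a' a]
  have hpos : 0 < tg (a', b', c') := by
    rw [tg]
    exact Nat.gcd_pos_of_pos_left _ (Int.natAbs_pos.2 ha'.ne')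
  rw [hg] at e5
  have e6 : a'.natAbs = a.natAbs := Nat.eq_of_mul_eq_mul_right hpos e5
  have e7 : a' = a := by omega
  subst e7
  have e8 : b = b' := mul_left_cancel₀ ha.ne' e3
  have e9 : c = c' := mul_left_cancel₀ ha.ne' e4
  rw [e8, e9]

/-- triples with a large divisor -/
theorem bad_card (T : ℝ) (hT : 1 ≤ T) (G : ℕ) (hG : 0 < G) :
    (((Trip T).filter fun t => t.1 ≠ 0 ∧ G < tg t).card : ℝ) ≤ 27 * T ^ 3 / G := by
  classical
  have hsub : ((Trip T).filter fun t => t.1 ≠ 0 ∧ G < tg t) ⊆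
      (Finset.Ioc G (max G ⌊T⌋₊)).biUnion fun g => (Trip (T / g)).image fun t => ((g : ℤ) * t.1, (g : ℤ) * t.2.1, (g : ℤ) * t.2.2) := by
    intro t ht
    obtain ⟨h1, h2, h3⟩ := Finset.mem_filter.1 ht
    have hd1 : tg t ∣ t.1.natAbs := Nat.gcd_dvd_left _ _
    have hd2 : tg t ∣ Nat.gcd t.2.1.natAbs t.2.2.natAbs := Nat.gcd_dvd_right _ _
    obtain ⟨p, hp⟩ := Int.natCast_dvd.2 hd1
    obtain ⟨q, hq⟩ := Int.natCast_dvd.2 (hd2.trans (Nat.gcd_dvd_left _ _))
    obtain ⟨r, hr⟩ := Int.natCast_dvd.2 (hd2.trans (Nat.gcd_dvd_right _ _))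
    have hg0 : (0 : ℝ) < tg t := by exact_mod_cast (lt_of_le_of_lt (Nat.zero_le _) h3)
    have hbd : ∀ x : ℤ, x ∈ Finset.Icc (-⌊T⌋) ⌊T⌋ → |(x : ℝ)| ≤ T := by
      intro x hx
      obtain ⟨h4, h5⟩ := Finset.mem_Icc.1 hx
      have h6 := Int.floor_le T
      have h7 : ((-⌊T⌋ : ℤ) : ℝ) ≤ x := by exact_mod_cast h4
      have h8 : (x : ℝ) ≤ (⌊T⌋ : ℤ) := by exact_mod_cast h5
      push_cast at h7
      rw [abs_le]
      constructor <;> linarith
    rw [Trip, Finset.mem_product, Finset.mem_product] at h1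
    have b1 := hbd _ h1.1
    have b2 := hbd _ h1.2.1
    have b3 := hbd _ h1.2.2
    have hdiv : ∀ x y : ℤ, x = (tg t : ℤ) * y → |(x : ℝ)| ≤ T → |(y : ℝ)| ≤ T / tg t := by
      intro x y hxy hx
      rw [le_div_iff₀ hg0]
      have h4 : (x : ℝ) = tg t * y := by exact_mod_cast congrArg (fun z : ℤ => (z : ℝ)) hxy
      rw [h4, abs_mul, abs_of_pos hg0] at hx
      linarith
    have hp0 : p ≠ 0 := by
      rintro rfl
      rw [mul_zero] at hp
      exact h2 hp
    rw [Finset.mem_biUnion]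
    refine ⟨tg t, Finset.mem_Ioc.2 ⟨h3, ?_⟩, Finset.mem_image.2 ⟨(p, q, r), mem_Trip (hdiv _ _ hp b1) (hdiv _ _ hq b2)
      (hdiv _ _ hr b3), ?_⟩⟩
    · refine le_max_of_le_right (Nat.le_floor ?_)
      have h4 := hdiv _ _ hp b1
      have h5 : (1 : ℝ) ≤ |(p : ℝ)| := by
        have : (1 : ℤ) ≤ |p| := Int.one_le_abs hp0
        exact_mod_cast this
      have h6 := h5.trans h4
      rwa [le_div_iff₀ hg0, one_mul] at h6
    · simp only
      rw [← hp, ← hq, ← hr]
  have h1 := (Finset.card_le_card hsub).trans Finset.card_biUnion_le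
  have hGR : (0 : ℝ) < G := by exact_mod_cast hG
  calc (((Trip T).filter fun t => t.1 ≠ 0 ∧ G < tg t).card : ℝ)
      ≤ ∑ g ∈ Finset.Ioc G (max G ⌊T⌋₊), (((Trip (T / g)).image
          fun t => ((g : ℤ) * t.1, (g : ℤ) * t.2.1, (g : ℤ) * t.2.2)).card : ℝ) := by exact_mod_cast h1
    _ ≤ ∑ g ∈ Finset.Ioc G (max G ⌊T⌋₊), 27 * T ^ 3 * ((g : ℝ) ^ 2)⁻¹ := by
        refine Finset.sum_le_sum fun g hg => ?_
        obtain ⟨hg1, hg2⟩ := Finset.mem_Ioc.1 hg
        have hgT : g ≤ ⌊T⌋₊ := by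
          rcases le_max_iff.1 hg2 with h | h
          · omega
          · exact h
        have hgR : (g : ℝ) ≤ T := (Nat.cast_le.2 hgT).trans (Nat.floor_le (by linarith))
        have hg0 : (1 : ℝ) ≤ g := by exact_mod_cast (show 1 ≤ g by omega)
        have h2 : (1 : ℝ) ≤ T / g := by
          rw [le_div_iff₀ (by linarith)]
          linarith
        refine (Nat.cast_le.2 Finset.card_image_le).trans ((card_Trip h2).trans ?_)
        rw [div_pow, mul_div_assoc', div_eq_mul_inv]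
        refine mul_le_mul_of_nonneg_left ?_ (by positivity)
        refine inv_anti₀ (by positivity) ?_
        exact pow_le_pow_right₀ hg0 (by norm_num)
    _ = 27 * T ^ 3 * ∑ g ∈ Finset.Ioc G (max G ⌊T⌋₊), ((g : ℝ) ^ 2)⁻¹ := by rw [Finset.mul_sum]
    _ ≤ 27 * T ^ 3 * (G : ℝ)⁻¹ := by
        refine mul_le_mul_of_nonneg_left ?_ (by positivity)
        have h2 := sum_Ioc_inv_sq_le_sub (α := ℝ) hG.ne' (le_max_left G ⌊T⌋₊)
        refine h2.trans ?_
        have : (0 : ℝ) ≤ ((max G ⌊T⌋₊ : ℕ) : ℝ)⁻¹ := by positivity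
        linarith
    _ = 27 * T ^ 3 / G := by rw [div_eq_mul_inv]

theorem quad_fin (T : ℝ) (L : Set ℂ) : {τ | τ ∈ L ∧ Quad T τ}.Finite := by
  classical
  refine (Finset.finite_toSet ((Finset.range (⌊(2 * T) ^ 2⌋₊ + 1)).biUnion fun D => XD T L D)).subset ?_
  rintro τ ⟨h1, h2⟩
  obtain ⟨D, -, h3, h4, -⟩ := mem_XD L h1 h2
  rw [Finset.mem_coe, Finset.mem_biUnion]
  exact ⟨D, Finset.mem_range.2 (Nat.lt_succ_of_le (Nat.le_floor h3)), h4⟩

/-- **many quadratic points** -/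
theorem many_quad (L : Set ℂ) (τ₀ : ℂ) (h0 : 0 < τ₀.im) (hL : τ₀ ∈ interior L) :
    ∃ c T₁ : ℝ, 0 < c ∧ ∀ T : ℝ, T₁ ≤ T → c * T ^ 3 ≤ ({τ | τ ∈ L ∧ Quad T τ}.ncard : ℝ) := by
  classical
  set x0 := τ₀.re with hx0
  set v0 := τ₀.re ^ 2 + τ₀.im ^ 2 with hv0
  -- the point with given real part and norm
  let φ : ℝ × ℝ → ℂ := fun p => (p.1 : ℂ) + Complex.I * ((Real.sqrt (p.2 - p.1 ^ 2) : ℝ) : ℂ)
  have hφc : Continuous φ := by
    refine (Complex.continuous_ofReal.comp continuous_fst).add (continuous_const.mul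
      (Complex.continuous_ofReal.comp (Real.continuous_sqrt.comp (continuous_snd.sub (continuous_fst.pow 2)))))
  have hφ0 : φ (x0, v0) = τ₀ := by
    simp only [φ]
    have h1 : v0 - x0 ^ 2 = τ₀.im ^ 2 := by rw [hv0, hx0]; ring
    rw [h1, Real.sqrt_sq h0.le]
    apply Complex.ext <;> simp [hx0]
  have hopen : IsOpen (interior L ∩ {z : ℂ | 0 < z.im}) :=
    isOpen_interior.inter (isOpen_lt continuous_const Complex.continuous_im)
  have hnb : φ ⁻¹' (interior L ∩ {z : ℂ | 0 < z.im}) ∈ nhds (x0, v0) := by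
    refine (hopen.preimage hφc).mem_nhds ?_
    rw [Set.mem_preimage, hφ0]
    exact ⟨hL, h0⟩
  obtain ⟨δ, hδ, hball⟩ := Metric.mem_nhds_iff.1 hnb
  have hin : ∀ u w : ℝ, |u - x0| < δ → |w - v0| < δ → φ (u, w) ∈ L ∧ 0 < (φ (u, w)).im := by
    intro u w hu hw
    have h1 : (u, w) ∈ Metric.ball (x0, v0) δ := by
      rw [Metric.mem_ball, Prod.dist_eq, max_lt_iff, Real.dist_eq, Real.dist_eq]
      exact ⟨hu, hw⟩
    have h2 := hball h1
    exact ⟨interior_subset h2.1, h2.2⟩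
  set M : ℝ := 1 + 2 * (|x0| + δ) + (|v0| + δ) with hM
  have hM1 : 1 ≤ M := by
    have := abs_nonneg x0
    have := abs_nonneg v0
    linarith
  have hM0 : 0 < M := by linarith
  set c0 : ℝ := δ ^ 2 / (256 * M ^ 3) with hc0
  have hc0p : 0 < c0 := by positivity
  set G : ℕ := ⌈54 / c0⌉₊ + 1 with hG
  have hG0 : 0 < G := Nat.succ_pos _
  have hGR : 54 / c0 ≤ G := by
    rw [hG]
    push_cast
    exact (Nat.le_ceil _).trans (by linarith)
  have hGp : (0 : ℝ) < G := by exact_mod_cast hG0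
  refine ⟨c0 / (4 * G), 4 * M + 8 * M / δ, by positivity, fun T hT => ?_⟩
  have hT4 : 4 * M ≤ T := by
    have : 0 < 8 * M / δ := by positivity
    linarith
  have hTδ : 8 * M / δ ≤ T := by linarith
  have hT1 : 1 ≤ T := by linarith
  have hTp : 0 < T := by linarith
  set m : ℕ := ⌊T / (2 * M)⌋₊ with hm
  have hm1 : (m : ℝ) ≤ T / (2 * M) := Nat.floor_le (by positivity)
  have hm2 : T / (4 * M) ≤ m := by
    have h1 := Nat.lt_floor_add_one (T / (2 * M))
    have h2 : (1 : ℝ) ≤ T / (4 * M) := by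
      rw [le_div_iff₀ (by positivity)]
      linarith
    have h3 : T / (2 * M) = T / (4 * M) + T / (4 * M) := by
      field_simp
      ring
    rw [← hm] at h1
    linarith
  set k : ℕ := ⌊(m : ℝ) * δ⌋₊ with hk
  have hk1 : (k : ℝ) ≤ m * δ := Nat.floor_le (by positivity)
  have hk2 : (m : ℝ) * δ / 2 ≤ k := by
    have h1 := Nat.lt_floor_add_one ((m : ℝ) * δ)
    have h2 : (2 : ℝ) ≤ m * δ := by
      have h3 : T / (4 * M) * δ ≤ m * δ := mul_le_mul_of_nonneg_right hm2 hδ.le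
      have h4 : (2 : ℝ) ≤ T / (4 * M) * δ := by
        rw [div_mul_eq_mul_div, le_div_iff₀ (by positivity)]
        rw [div_le_iff₀ hδ] at hTδ
        linarith
      linarith
    rw [← hk] at h1
    linarith
  -- the family of triples
  let f : ℕ × ℕ × ℕ → ℤ × ℤ × ℤ := fun p =>
    ((m : ℤ) + 1 + p.1, ⌈-(2 * ((m : ℝ) + 1 + p.1) * x0)⌉ + p.2.1, ⌈((m : ℝ) + 1 + p.1) * v0⌉ + p.2.2)
  have hf : Function.Injective f := by
    rintro ⟨s, i, l⟩ ⟨s', i', l'⟩ h
    simp only [f, Prod.mk.injEq] at h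
    obtain ⟨h1, h2, h3⟩ := h
    have h4 : s = s' := by omega
    subst h4
    simp only [add_right_inj] at h2 h3
    have h5 : i = i' := by exact_mod_cast h2
    have h6 : l = l' := by exact_mod_cast h3
    rw [h5, h6]
  set Fa : Finset (ℤ × ℤ × ℤ) := (Finset.range m ×ˢ Finset.range k ×ˢ Finset.range k).image f with hFa
  have hFc : (Fa.card : ℝ) = m * (k * k) := by
    rw [hFa, Finset.card_image_of_injective _ hf, Finset.card_product, Finset.card_product, Finset.card_range,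
      Finset.card_range]
    push_cast
    ring
  have hFbig : c0 * T ^ 3 ≤ Fa.card := by
    rw [hFc]
    have h1 : (m : ℝ) * ((m * δ / 2) * (m * δ / 2)) ≤ m * (k * k) := by gcongr
    have h2 : (T / (4 * M)) ^ 3 ≤ (m : ℝ) ^ 3 := pow_le_pow_left₀ (by positivity) hm2 3
    have h3 : c0 * T ^ 3 = (T / (4 * M)) ^ 3 * (δ ^ 2 / 4) := by
      rw [hc0]
      field_simp
      ring
    rw [h3]
    refine le_trans ?_ h1
    have h4 : (m : ℝ) * ((m * δ / 2) * (m * δ / 2)) = m ^ 3 * (δ ^ 2 / 4) := by ring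
    rw [h4]
    exact mul_le_mul_of_nonneg_right h2 (by positivity)
  have hFp : ∀ t ∈ Fa, 0 < t.1 ∧ t ∈ Trip T ∧ ∃ τ : ℂ, τ ∈ L ∧ 0 < τ.im ∧
      (t.1 : ℂ) * τ ^ 2 + t.2.1 * τ + t.2.2 = 0 ∧ Quad T τ := by
    intro t ht
    rw [hFa, Finset.mem_image] at ht
    obtain ⟨⟨s, i, l⟩, hp, rfl⟩ := ht
    rw [Finset.mem_product, Finset.mem_product] at hp
    obtain ⟨hs, hi, hl⟩ := hp
    simp only [Finset.mem_range] at hs hi hl
    set a : ℤ := (m : ℤ) + 1 + s with ha
    set b : ℤ := ⌈-(2 * ((m : ℝ) + 1 + s) * x0)⌉ + i with hb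
    set c : ℤ := ⌈((m : ℝ) + 1 + s) * v0⌉ + l with hc
    have haR : (a : ℝ) = m + 1 + s := by rw [ha]; push_cast; ring
    have ham : (m : ℝ) < a := by rw [haR]; have : (0:ℝ) ≤ s := Nat.cast_nonneg s; linarith
    have ha0 : (0 : ℝ) < a := lt_of_le_of_lt (Nat.cast_nonneg m) ham
    have ha0' : 0 < a := by exact_mod_cast ha0
    have hi' : (i : ℝ) + 1 ≤ k := by exact_mod_cast hi
    have hl' : (l : ℝ) + 1 ≤ k := by exact_mod_cast hl
    have hb1 := Int.le_ceil (-(2 * ((m : ℝ) + 1 + s) * x0))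
    have hb2 := Int.ceil_lt_add_one (-(2 * ((m : ℝ) + 1 + s) * x0))
    have hc1 := Int.le_ceil (((m : ℝ) + 1 + s) * v0)
    have hc2 := Int.ceil_lt_add_one (((m : ℝ) + 1 + s) * v0)
    have hi0 : (0 : ℝ) ≤ i := Nat.cast_nonneg i
    have hl0 : (0 : ℝ) ≤ l := Nat.cast_nonneg l
    have hbR : (b : ℝ) = (⌈-(2 * ((m : ℝ) + 1 + s) * x0)⌉ : ℤ) + i := by rw [hb]; push_cast; ring
    have hcR : (c : ℝ) = (⌈((m : ℝ) + 1 + s) * v0⌉ : ℤ) + l := by rw [hc]; push_cast; ring
    rw [← haR] at hb1 hb2 hc1 hc2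
    rw [← haR] at hbR hcR
    have hkδ : (k : ℝ) < a * δ := lt_of_le_of_lt hk1 (mul_lt_mul_of_pos_right ham hδ)
    have hu : |(-(b : ℝ) / (2 * a)) - x0| < δ := by
      have e1 : (-(b : ℝ) / (2 * a)) - x0 = -((b + 2 * a * x0) / (2 * a)) := by
        field_simp
        ring
      rw [e1, abs_neg, abs_div, abs_of_pos (show (0 : ℝ) < 2 * a by positivity), div_lt_iff₀ (by positivity), abs_lt]
      have : 0 < (a : ℝ) * δ := by positivity
      constructor <;> nlinarith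
    have hw : |(c : ℝ) / a - v0| < δ := by
      have e1 : (c : ℝ) / a - v0 = (c - a * v0) / a := by
        field_simp
      rw [e1, abs_div, abs_of_pos ha0, div_lt_iff₀ ha0, abs_lt]
      have : 0 < (a : ℝ) * δ := by positivity
      constructor <;> nlinarith
    obtain ⟨hL1, hL2⟩ := hin _ _ hu hw
    set τ : ℂ := φ (-(b : ℝ) / (2 * a), (c : ℝ) / a) with hτ
    have hsq : 0 < (c : ℝ) / a - (-(b : ℝ) / (2 * a)) ^ 2 := by
      by_contra hneg
      push Not at hneg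
      have : τ.im = 0 := by
        rw [hτ]
        simp only [φ]
        rw [Real.sqrt_eq_zero_of_nonpos hneg, Complex.ofReal_zero, mul_zero, add_zero]
        exact Complex.ofReal_im _
      linarith
    have heq : (a : ℂ) * τ ^ 2 + b * τ + c = 0 := by
      have e1 : ((Real.sqrt ((c : ℝ) / a - (-(b : ℝ) / (2 * a)) ^ 2) : ℝ) : ℂ) ^ 2 =
          (c : ℂ) / a - (-(b : ℂ) / (2 * a)) ^ 2 := by
        rw [← Complex.ofReal_pow, Real.sq_sqrt hsq.le]
        push_cast
        ring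
      have e2 : τ = -(b : ℂ) / (2 * a) + Complex.I * ((Real.sqrt ((c : ℝ) / a - (-(b : ℝ) / (2 * a)) ^ 2) : ℝ) : ℂ) := by
        rw [hτ]
        simp only [φ]
        push_cast
        ring
      have haC : (a : ℂ) ≠ 0 := by exact_mod_cast ha0'.ne'
      rw [e2]
      set S : ℂ := ((Real.sqrt ((c : ℝ) / a - (-(b : ℝ) / (2 * a)) ^ 2) : ℝ) : ℂ) with hS
      have e3 : (-(b : ℂ) / (2 * a) + Complex.I * S) ^ 2 = (-(b : ℂ) / (2 * a)) ^ 2 + 2 * (-(b : ℂ) / (2 * a)) * (Complex.I * S)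
          - S ^ 2 := by
        have := Complex.I_sq
        linear_combination S ^ 2 * this
      rw [e3, e1]
      field_simp
      ring
    have hsum : (m : ℝ) + 1 + s ≤ 2 * m := by
      have : (s : ℝ) + 1 ≤ m := by exact_mod_cast hs
      linarith
    have hMa : M * a ≤ T := by
      rw [haR]
      calc M * ((m : ℝ) + 1 + s) ≤ M * (2 * m) := mul_le_mul_of_nonneg_left hsum hM0.le
        _ ≤ M * (2 * (T / (2 * M))) := by gcongr
        _ = T := by field_simp
    have haT : |(a : ℝ)| ≤ T := by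
      rw [abs_of_pos ha0]
      exact (le_mul_of_one_le_left ha0.le hM1).trans hMa
    have hbT : |(b : ℝ)| ≤ T := by
      have e1 : |(b : ℝ)| ≤ 2 * a * (|x0| + δ) := by
        have e2 := abs_lt.1 hu
        have e3 : (b : ℝ) = -(2 * a) * (-(b : ℝ) / (2 * a)) := by field_simp
        have e4 : |-(b : ℝ) / (2 * a)| ≤ |x0| + δ := by
          have e5 : -(b : ℝ) / (2 * a) = x0 + (-(b : ℝ) / (2 * a) - x0) := by ring
          rw [e5]
          refine (abs_add_le _ _).trans ?_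
          linarith
        rw [e3, abs_mul, abs_neg, abs_of_pos (show (0 : ℝ) < 2 * a by positivity)]
        exact mul_le_mul_of_nonneg_left e4 (by positivity)
      refine e1.trans (le_trans ?_ hMa)
      have h7 : 2 * (a : ℝ) * (|x0| + δ) = (2 * (|x0| + δ)) * a := by ring
      rw [h7]
      refine mul_le_mul_of_nonneg_right ?_ ha0.le
      rw [hM]
      have := abs_nonneg v0
      linarith
    have hcT : |(c : ℝ)| ≤ T := by
      have e1 : |(c : ℝ)| ≤ a * (|v0| + δ) := by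
        have e3 : (c : ℝ) = a * ((c : ℝ) / a) := by field_simp
        have e4 : |(c : ℝ) / a| ≤ |v0| + δ := by
          have e5 : (c : ℝ) / a = v0 + ((c : ℝ) / a - v0) := by ring
          rw [e5]
          refine (abs_add_le _ _).trans ?_
          linarith
        rw [e3, abs_mul, abs_of_pos ha0]
        exact mul_le_mul_of_nonneg_left e4 (by positivity)
      refine e1.trans (le_trans ?_ hMa)
      rw [mul_comm]
      refine mul_le_mul_of_nonneg_right ?_ ha0.le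
      rw [hM]
      have := abs_nonneg x0
      linarith
    refine ⟨ha0', mem_Trip haT hbT hcT, τ, hL1, hL2, heq, hL2, a, b, c, ha0'.ne', haT, hbT, hcT, heq⟩
  -- the good triples
  set Go : Finset (ℤ × ℤ × ℤ) := Fa.filter fun t => tg t ≤ G with hGo
  have hGoc : c0 / 2 * T ^ 3 ≤ Go.card := by
    have h1 : Fa.card ≤ Go.card + ((Trip T).filter fun t => t.1 ≠ 0 ∧ G < tg t).card := by
      rw [← Finset.card_filter_add_card_filter_not (s := Fa) (fun t => tg t ≤ G)]
      refine Nat.add_le_add_left (Finset.card_le_card ?_) _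
      intro t ht
      obtain ⟨h1, h2⟩ := Finset.mem_filter.1 ht
      exact Finset.mem_filter.2 ⟨(hFp t h1).2.1, (hFp t h1).1.ne', not_le.1 h2⟩
    have h2 := bad_card T hT1 G hG0
    have h3 : 27 * T ^ 3 / G ≤ c0 / 2 * T ^ 3 := by
      rw [div_le_iff₀ hGp]
      rw [div_le_iff₀ hc0p] at hGR
      have h4 : 0 ≤ T ^ 3 := by positivity
      nlinarith
    have h5 : (Fa.card : ℝ) ≤ Go.card + ((Trip T).filter fun t => t.1 ≠ 0 ∧ G < tg t).card := by exact_mod_cast h1
    linarith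
  have hS := quad_fin T L
  choose! τ hτL hτi hτe hτq using fun t (ht : t ∈ Fa) => (hFp t ht).2.2
  have h6 : Go.card ≤ (hS.toFinset ×ˢ Finset.range (G + 1)).card := by
    refine Finset.card_le_card_of_injOn (fun t => (τ t, tg t)) ?_ ?_
    · intro t ht
      obtain ⟨h1, h2⟩ := Finset.mem_filter.1 ht
      exact Finset.mem_product.2 ⟨hS.mem_toFinset.2 ⟨hτL t h1, hτq t h1⟩, Finset.mem_range.2 (Nat.lt_succ_of_le h2)⟩
    · intro t ht t' ht' htt
      obtain ⟨h1, -⟩ := Finset.mem_filter.1 ht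
      obtain ⟨h1', -⟩ := Finset.mem_filter.1 ht'
      simp only [Prod.mk.injEq] at htt
      have h2 := hτe t' h1'
      rw [← htt.1] at h2
      exact root_inj (hτi t h1) (hτe t h1) h2 (hFp t h1).1 (hFp t' h1').1 htt.2
  rw [Finset.card_product, Finset.card_range] at h6
  have h7 : (Go.card : ℝ) ≤ ({τ | τ ∈ L ∧ Quad T τ}.ncard : ℝ) * (G + 1) := by
    rw [Set.ncard_eq_toFinset_card _ hS]
    exact_mod_cast h6
  have h8 : (G : ℝ) + 1 ≤ 2 * G := by
    have : (1 : ℝ) ≤ G := by exact_mod_cast hG0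
    linarith
  have h9 : (0 : ℝ) ≤ ({τ | τ ∈ L ∧ Quad T τ}.ncard : ℝ) := Nat.cast_nonneg _
  have h10 : c0 / 2 * T ^ 3 ≤ ({τ | τ ∈ L ∧ Quad T τ}.ncard : ℝ) * (2 * G) :=
    hGoc.trans (h7.trans (mul_le_mul_of_nonneg_left h8 h9))
  have h12 : c0 / (4 * G) * T ^ 3 = (c0 / 2 * T ^ 3) / (2 * G) := by
    field_simp
    ring
  rw [h12, div_le_iff₀ (by positivity)]
  exact h10

end Pool.Agent.Q192.QD
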