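import Pool.Agent.Q192.QD.Count
import Pool.Agent.Y776.Cv.GenK

/-!
# Tuples of algebraic numbers of bounded degree, each in its own number field
-/

set_option autoImplicit false

open Finset NumberField Module

namespace Pool.Agent.Q192.QD

open Pool.Agent.Y120 (NormRing Pt RK RK_norm gK HtLe Pt_of_HtLe house_le house_ge)
open Pool.Agent.Y124 (OneV MgR multiR mgR RelK RelR_mono RelR_of_RelK gK_lt relK_of_poly' LocInd oneV_of)

/-- zeros of nonzero polynomials of degree at most `m` with integral coefficients of absolute value at most `T` -/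
def AlgLe (m : ℕ) (T : ℝ) (x : ℂ) : Prop :=
  ∃ P : Polynomial ℤ, P ≠ 0 ∧ P.natDegree ≤ m ∧ (∀ i, |(P.coeff i : ℝ)| ≤ T) ∧ Polynomial.aeval x P = 0

/-- the number of the different fields generated by the elements of `X` -/
noncomputable def nfd (X : Finset ℂ) : ℕ :=
  Set.ncard {G : IntermediateField ℚ ℂ | ∃ x ∈ X, G = IntermediateField.adjoin ℚ {x}}

theorem nfd_eq [DecidableEq (IntermediateField ℚ ℂ)] (X : Finset ℂ) :
    nfd X = (X.image fun x => IntermediateField.adjoin ℚ {x}).card := by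
  rw [nfd, ← Set.ncard_coe_finset]
  congr 1
  ext G
  simp [eq_comm]

theorem map_aeval {x : ℂ} {P : Polynomial ℤ} (hP : Polynomial.aeval x P = 0) :
    Polynomial.aeval x (P.map (Int.castRingHom ℚ)) = 0 := by
  rw [show Int.castRingHom ℚ = algebraMap ℤ ℚ from rfl, Polynomial.aeval_map_algebraMap]
  exact hP

theorem map_ne {P : Polynomial ℤ} (hP0 : P ≠ 0) : P.map (Int.castRingHom ℚ) ≠ 0 := by
  rw [Ne, Polynomial.map_eq_zero_iff (RingHom.injective_int _)]
  exact hP0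

theorem AlgLe.integral {m : ℕ} {T : ℝ} {x : ℂ} (h : AlgLe m T x) : IsIntegral ℚ x := by
  obtain ⟨P, hP0, -, -, hP⟩ := h
  exact IsAlgebraic.isIntegral ⟨P.map (Int.castRingHom ℚ), map_ne hP0, map_aeval hP⟩

theorem AlgLe.finrank {m : ℕ} {T : ℝ} {x : ℂ} (h : AlgLe m T x) :
    finrank ℚ (IntermediateField.adjoin ℚ {x}) ≤ m := by
  have hi := h.integral
  obtain ⟨P, hP0, hPm, -, hP⟩ := h
  rw [IntermediateField.adjoin.finrank hi]
  refine (Polynomial.natDegree_le_of_dvd (minpoly.dvd ℚ x (map_aeval hP)) (map_ne hP0)).trans ?_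
  exact Polynomial.natDegree_map_le.trans hPm

theorem norm_emb {m : ℕ} {T : ℝ} (hT : 0 ≤ T) {x : ℂ} {P : Polynomial ℤ} (hP0 : P ≠ 0)
    (hPT : ∀ i, |(P.coeff i : ℝ)| ≤ T) {z : ℂ} (hz : Polynomial.aeval z P = 0) :
    |(P.leadingCoeff : ℝ)| * ‖z‖ ≤ 2 * T := by
  have h0 : P.map (Int.castRingHom ℂ) ≠ 0 := by
    rw [Ne, Polynomial.map_eq_zero_iff (RingHom.injective_int _)]
    exact hP0
  have h1 : (P.map (Int.castRingHom ℂ)).IsRoot z := by
    rw [Polynomial.IsRoot, Polynomial.eval_map]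
    exact hz
  have h2 := Polynomial.IsRoot.norm_lt_cauchyBound h0 h1
  have hlc : (P.map (Int.castRingHom ℂ)).leadingCoeff = (P.leadingCoeff : ℂ) := by
    rw [Polynomial.leadingCoeff_map_of_injective (RingHom.injective_int _)]
    rfl
  have h3 : ‖z‖ < (P.map (Int.castRingHom ℂ)).cauchyBound := by exact_mod_cast h2
  rw [Polynomial.cauchyBound, hlc] at h3
  push_cast at h3
  have hL : 0 < |(P.leadingCoeff : ℝ)| := by
    rw [abs_pos]
    exact_mod_cast Polynomial.leadingCoeff_ne_zero.2 hP0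
  have hn : ‖(P.leadingCoeff : ℂ)‖ = |(P.leadingCoeff : ℝ)| := Complex.norm_intCast _
  rw [hn] at h3
  have hsup : (((Finset.range (P.map (Int.castRingHom ℂ)).natDegree).sup fun i =>
      ‖(P.map (Int.castRingHom ℂ)).coeff i‖₊ : NNReal) : ℝ) ≤ T := by
    have h7 : ((Finset.range (P.map (Int.castRingHom ℂ)).natDegree).sup fun i =>
      ‖(P.map (Int.castRingHom ℂ)).coeff i‖₊) ≤ Real.toNNReal T := by
      refine Finset.sup_le fun i _ => ?_
      rw [Real.le_toNNReal_iff_coe_le hT, coe_nnnorm, Polynomial.coeff_map]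
      change ‖((P.coeff i : ℤ) : ℂ)‖ ≤ T
      rw [Complex.norm_intCast]
      exact hPT i
    have h8 := NNReal.coe_le_coe.2 h7
    rwa [Real.coe_toNNReal T hT] at h8
  have h4 : |(P.leadingCoeff : ℝ)| ≤ T := hPT _
  have h5 : ‖z‖ ≤ T / |(P.leadingCoeff : ℝ)| + 1 := by
    refine h3.le.trans ?_
    gcongr
  calc |(P.leadingCoeff : ℝ)| * ‖z‖ ≤ |(P.leadingCoeff : ℝ)| * (T / |(P.leadingCoeff : ℝ)| + 1) :=
        mul_le_mul_of_nonneg_left h5 hL.le
    _ = T + |(P.leadingCoeff : ℝ)| := by field_simp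
    _ ≤ 2 * T := by linarith

theorem htLe_alg (K : IntermediateField ℚ ℂ) [NumberField K] {m : ℕ} {T : ℝ} (hT : 0 ≤ T) {x : ℂ}
    (h : AlgLe m T x) (hx : x ∈ K) : HtLe K (2 * T) ⟨x, hx⟩ := by
  obtain ⟨P, hP0, -, hPT, hP⟩ := h
  have hK : Polynomial.aeval (⟨x, hx⟩ : K) P = 0 := by
    apply FaithfulSMul.algebraMap_injective K ℂ
    rw [map_zero, ← Polynomial.aeval_algebraMap_apply]
    exact hP
  have hint := isIntegral_leadingCoeff_smul P (⟨x, hx⟩ : K) hK
  refine ⟨⟨_, hint⟩, (P.leadingCoeff : 𝓞 K), ?_, ?_, ?_, ?_⟩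
  · exact_mod_cast Polynomial.leadingCoeff_ne_zero.2 hP0
  · refine house_le _ (by positivity) fun φ => ?_
    change ‖φ (P.leadingCoeff • (⟨x, hx⟩ : K))‖ ≤ 2 * T
    rw [zsmul_eq_mul, map_mul, map_intCast, norm_mul, Complex.norm_intCast]
    refine norm_emb (m := m) hT (x := x) hP0 hPT ?_
    have h1 : Polynomial.aeval (φ ⟨x, hx⟩) P = φ (Polynomial.aeval (⟨x, hx⟩ : K) P) := by
      rw [Polynomial.aeval_def, Polynomial.aeval_def, Polynomial.hom_eval₂]
      congr 1
      exact RingHom.ext_int _ _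
    rw [h1, hK, map_zero]
  · refine house_le _ (by positivity) fun φ => ?_
    change ‖(φ.comp (algebraMap (𝓞 K) K)) (P.leadingCoeff : 𝓞 K)‖ ≤ 2 * T
    rw [map_intCast, Complex.norm_intCast]
    linarith [hPT P.natDegree, show |(P.leadingCoeff : ℝ)| = |(P.coeff P.natDegree : ℝ)| from rfl]
  · have h2 : (((P.leadingCoeff : 𝓞 K)) : K) = (P.leadingCoeff : K) := by
      change (algebraMap (𝓞 K) K) (P.leadingCoeff : 𝓞 K) = _
      rw [map_intCast]
    have h3 : (P.leadingCoeff : K) ≠ 0 := by exact_mod_cast Polynomial.leadingCoeff_ne_zero.2 hP0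
    rw [h2, eq_div_iff h3]
    change _ = P.leadingCoeff • (⟨x, hx⟩ : K)
    rw [zsmul_eq_mul, mul_comm]

theorem sup_aux (m : ℕ) : ∀ (n : ℕ) (G : Fin n → IntermediateField ℚ ℂ), (∀ j, FiniteDimensional ℚ (G j)) →
    (∀ j, finrank ℚ (G j) ≤ m) →
    FiniteDimensional ℚ (⨆ j, G j : IntermediateField ℚ ℂ) ∧ finrank ℚ (⨆ j, G j : IntermediateField ℚ ℂ) ≤ m ^ n := by
  intro n
  induction n with
  | zero =>
    intro G _ _
    have h1 : (⨆ j, G j : IntermediateField ℚ ℂ) = ⊥ := by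
      rw [iSup_of_empty]
    rw [h1]
    exact ⟨(IntermediateField.botEquiv ℚ ℂ).symm.toLinearEquiv.finiteDimensional, by
      rw [IntermediateField.finrank_bot]; norm_num⟩
  | succ n ih =>
    intro G hG hm
    have h1 : (⨆ j, G j : IntermediateField ℚ ℂ) = G 0 ⊔ ⨆ j : Fin n, G j.succ := by
      apply le_antisymm
      · refine iSup_le fun j => ?_
        refine Fin.cases ?_ (fun i => ?_) j
        · exact le_sup_left
        · exact (le_iSup (fun j : Fin n => G j.succ) i).trans le_sup_right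
      · refine sup_le (le_iSup G 0) (iSup_le fun i => ?_)
        exact le_iSup G i.succ
    obtain ⟨h2, h3⟩ := ih (fun j => G j.succ) (fun j => hG _) (fun j => hm _)
    have h4 : FiniteDimensional ℚ (G 0) := hG 0
    rw [h1]
    refine ⟨IntermediateField.finiteDimensional_sup _ _, ?_⟩
    refine (IntermediateField.finrank_sup_le _ _).trans ?_
    rw [pow_succ, mul_comm]
    exact Nat.mul_le_mul h3 (hm 0)

theorem sInt_K (K : IntermediateField ℚ ℂ) [NumberField K] {n : ℕ} (τ : Fin n → ℂ) (hτ : ∀ j, τ j ∈ K) (H : ℝ)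
    (c : ℂ) (hc : SInt (Set.range τ) H c) : ∃ x : 𝓞 K, ((x : K) : ℂ) = c ∧ ∀ φ : K →+* ℂ, ‖φ (x : K)‖ ≤ H := by
  obtain ⟨h1, h2, h3⟩ := hc
  have h4 : IntermediateField.adjoin ℚ (Set.range τ) ≤ K := by
    rw [IntermediateField.adjoin_le_iff]
    rintro _ ⟨j, rfl⟩
    exact hτ j
  have hint : IsIntegral ℤ (⟨c, h4 h1⟩ : K) :=
    (isIntegral_algebraMap_iff (B := ℂ) (FaithfulSMul.algebraMap_injective K ℂ)).1 h2
  refine ⟨⟨⟨c, h4 h1⟩, hint⟩, rfl, fun φ => ?_⟩
  apply h3
  have h5 : minpoly ℚ (⟨c, h4 h1⟩ : K) = minpoly ℚ c := by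
    rw [← minpoly.algebraMap_eq (B := K) (B' := ℂ) (FaithfulSMul.algebraMap_injective K ℂ)]
    rfl
  have h2' : IsIntegral ℚ c := h2.tower_top
  rw [Polynomial.mem_aroots]
  refine ⟨minpoly.ne_zero h2', ?_⟩
  rw [← h5]
  have h6 := minpoly.aeval ℚ (⟨c, h4 h1⟩ : K)
  have h7 := congrArg φ h6
  rw [map_zero, Polynomial.aeval_def, Polynomial.hom_eval₂] at h7
  rw [Polynomial.aeval_def]
  refine Eq.trans ?_ h7
  congr 1
  exact RingHom.ext_rat _ _

/-- the bound for the number of exceptional tuples -/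
noncomputable def MgF {n : ℕ} (X : Fin n → Finset ℂ) : ℝ :=
  ∑ j, (nfd (X j) : ℝ) * ∏ i ∈ Finset.univ.erase j, ((X i).card : ℝ)

theorem sum_MgF {n : ℕ} [DecidableEq (IntermediateField ℚ ℂ)] (X : Fin n → Finset ℂ) :
    ∑ G ∈ Fintype.piFinset (fun j : Fin n => (X j).image fun x => IntermediateField.adjoin ℚ {x}),
      MgR (fun j => (X j).filter fun x => IntermediateField.adjoin ℚ {x} = G j) = MgF X := by
  classical
  simp only [MgR, MgF]
  rw [Finset.sum_comm]
  refine Finset.sum_congr rfl fun j _ => ?_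
  rw [← Finset.prod_univ_sum (fun j : Fin n => (X j).image fun x => IntermediateField.adjoin ℚ {x})
    (fun i (G : IntermediateField ℚ ℂ) => if i = j then (1 : ℝ) else
      (((X i).filter fun x => IntermediateField.adjoin ℚ {x} = G).card : ℝ))]
  rw [← Finset.mul_prod_erase Finset.univ _ (Finset.mem_univ j)]
  congr 1
  · simp only [if_true]
    rw [Finset.sum_const, nsmul_eq_mul, mul_one, nfd_eq]
  · refine Finset.prod_congr rfl fun i hi => ?_
    have hij := Finset.ne_of_mem_erase hi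
    simp only [if_neg hij]
    rw [Finset.card_eq_sum_card_image (fun x => IntermediateField.adjoin ℚ {x}) (X i)]
    push_cast
    rfl

/-- **tuples of algebraic numbers of bounded degree** -/
theorem fields_main {κ η : Type} [Fintype κ] [DecidableEq κ] [Fintype η] [DecidableEq η] (m n d : ℕ)
    (v : Fin n → ℂ → κ → ℂ) (L : Fin n → Set ℂ)
    (hv : ∀ g j, OneV g (fun R T => {t | t ∈ L j ∧ Pt R T t}) (v j)) (A ε : ℝ) (hε : 0 < ε) :
    ∃ B C T₀ : ℝ, ∀ (ξ : η → ℂ) (T : ℝ), T₀ ≤ T → ∀ X : Fin n → Finset ℂ,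
      (∀ j, ∀ x ∈ X j, x ∈ L j ∧ AlgLe m T x) → ∀ E : Set (Fin n → ℂ),
      (∀ x ∈ E, (∀ j, x j ∈ X j) ∧
        ∃ P : MvPolynomial (Fin n × κ) ℂ, (∀ y, P.degreeOf y ≤ d) ∧
        (∀ s, ∃ c : η → ℂ, (∀ i, SInt (Set.range x) (T ^ A) (c i)) ∧ P.coeff s = ∑ i, ξ i * c i) ∧
        ∃ s₀, P.coeff s₀ ≠ 0 ∧
          ‖MvPolynomial.aeval (fun y : Fin n × κ => v y.1 (x y.1) y.2) P‖ ≤ T ^ (-B) * ‖P.coeff s₀‖) →
      E.Finite ∧ (E.ncard : ℝ) ≤ C * T ^ ε * MgF X := by
  classical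
  obtain ⟨B, C, T₀, hB, hC, hT₀, H⟩ := nfX (m ^ n) n v L hv η d (max A 0) ε hε
  refine ⟨2 * B, C * 2 ^ ε, max T₀ 2, fun ξ T hT X hX E hE => ?_⟩
  have hT2 : 2 ≤ T := (le_max_right _ _).trans hT
  have hT0 : T₀ ≤ T := (le_max_left _ _).trans hT
  have hTpos : 0 < T := by linarith
  have hT1 : 1 ≤ T := by linarith
  have h2T : T₀ ≤ 2 * T := by linarith
  have hHle : T ^ A ≤ (2 * T) ^ (max A 0) :=
    (Real.rpow_le_rpow_of_exponent_le hT1 (le_max_left _ _)).trans
      (Real.rpow_le_rpow hTpos.le (by linarith) (le_max_right _ _))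
  have hδle : T ^ (-(2 * B)) ≤ (2 * T) ^ (-B) := by
    have h1 : (2 * T) ^ B ≤ T ^ (2 * B) := by
      rw [Real.rpow_mul hTpos.le]
      refine Real.rpow_le_rpow (by positivity) ?_ hB
      rw [Real.rpow_two]
      nlinarith
    rw [Real.rpow_neg hTpos.le, Real.rpow_neg (by positivity)]
    exact inv_anti₀ (Real.rpow_pos_of_pos (by positivity) _) h1
  set I : Fin n → Finset (IntermediateField ℚ ℂ) := fun j => (X j).image fun x => IntermediateField.adjoin ℚ {x}
    with hI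
  let XG : (Fin n → IntermediateField ℚ ℂ) → Fin n → Finset ℂ := fun G j =>
    (X j).filter fun x => IntermediateField.adjoin ℚ {x} = G j
  let Y : (Fin n → IntermediateField ℚ ℂ) → Finset (Fin n → ℂ) := fun G =>
    (Fintype.piFinset (XG G)).filter fun x => x ∈ E
  have hEsub : E ⊆ (((Fintype.piFinset I).biUnion Y : Finset (Fin n → ℂ)) : Set (Fin n → ℂ)) := by
    intro x hx
    rw [Finset.mem_coe, Finset.mem_biUnion]
    refine ⟨fun j => IntermediateField.adjoin ℚ {x j}, Fintype.mem_piFinset.2 fun j =>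
      Finset.mem_image_of_mem _ ((hE x hx).1 j), Finset.mem_filter.2 ⟨Fintype.mem_piFinset.2 fun j =>
      Finset.mem_filter.2 ⟨(hE x hx).1 j, rfl⟩, hx⟩⟩
  have hEf : E.Finite := (Finset.finite_toSet _).subset hEsub
  refine ⟨hEf, ?_⟩
  have h1 : (E.ncard : ℝ) ≤ ∑ G ∈ Fintype.piFinset I, ((Y G).card : ℝ) := by
    have h2 := Set.ncard_le_ncard hEsub (Finset.finite_toSet _)
    rw [Set.ncard_coe_finset] at h2
    have h3 := h2.trans Finset.card_biUnion_le
    exact_mod_cast h3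
  have h2 : ∑ G ∈ Fintype.piFinset I, ((Y G).card : ℝ) ≤
      ∑ G ∈ Fintype.piFinset I, C * (2 * T) ^ ε * MgR (XG G) := by
    refine Finset.sum_le_sum fun G hG => ?_
    have hG' : ∀ j, ∃ x ∈ X j, IntermediateField.adjoin ℚ {x} = G j := fun j =>
      Finset.mem_image.1 (Fintype.mem_piFinset.1 hG j)
    have hfd : ∀ j, FiniteDimensional ℚ (G j) := by
      intro j
      obtain ⟨x, hx, hxG⟩ := hG' j
      rw [← hxG]
      exact IntermediateField.adjoin.finiteDimensional (hX j x hx).2.integral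
    have hfr : ∀ j, finrank ℚ (G j) ≤ m := by
      intro j
      obtain ⟨x, hx, hxG⟩ := hG' j
      rw [← hxG]
      exact (hX j x hx).2.finrank
    obtain ⟨hf1, hf2⟩ := sup_aux m n G hfd hfr
    set K : IntermediateField ℚ ℂ := ⨆ j, G j with hK
    have : NumberField K := { to_charZero := inferInstance, to_finiteDimensional := hf1 }
    have hmem : ∀ j x, x ∈ XG G j → x ∈ K := by
      intro j x hx
      have h3 := (Finset.mem_filter.1 hx).2
      have h4 : G j ≤ K := le_iSup G j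
      apply h4
      rw [← h3]
      exact IntermediateField.mem_adjoin_simple_self ℚ x
    refine H K hf2 K.val.toRingHom ξ (2 * T) h2T (XG G) (fun j x hx => ?_) (Y G) (Finset.filter_subset _ _)
      fun x hx => ?_
    · have h3 := (Finset.mem_filter.1 hx).1
      exact ⟨(hX j x h3).1, ⟨x, hmem j x hx⟩, rfl, htLe_alg K hTpos.le (hX j x h3).2 _⟩
    · obtain ⟨hx1, hx2⟩ := Finset.mem_filter.1 hx
      have hxK : ∀ j, x j ∈ K := fun j => hmem j _ (Fintype.mem_piFinset.1 hx1 j)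
      obtain ⟨-, P, hPd, hPc, s₀, hs₀, hs⟩ := hE x hx2
      refine relK_of_poly' K K.val.toRingHom ξ v x _ _ P hPd ?_ s₀ hs₀ ?_
      · intro s
        obtain ⟨c, hc1, hc2⟩ := hPc s
        choose y hy1 hy2 using fun i => sInt_K K x hxK (T ^ A) (c i) (hc1 i)
        refine ⟨y, fun i φ => (hy2 i φ).trans hHle, ?_⟩
        rw [hc2]
        refine Finset.sum_congr rfl fun i _ => ?_
        rw [← hy1 i]
        rfl
      · refine hs.trans ?_
        exact mul_le_mul_of_nonneg_right hδle (norm_nonneg _)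
  rw [← Finset.mul_sum, sum_MgF X] at h2
  refine (h1.trans h2).trans (le_of_eq ?_)
  rw [Real.mul_rpow (by norm_num) hTpos.le]
  ring

end Pool.Agent.Q192.QD
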