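import Pool.Agent.Q192.QD.Master

/-!
# Families of different shapes
-/

set_option autoImplicit false

open Filter Topology Set NumberField MvPolynomial

noncomputable section

namespace Pool.Agent.Q192.QD

open Pool.Agent.Y124 (LocInd oneV_of)
open Pool.Agent.Y776.Cv (exists_pad LocInd.comp_inj)

/-- **tuples of algebraic numbers of bounded degree, families of different shapes** -/
theorem fields_sigma {η : Type} [Fintype η] [DecidableEq η] (m n d : ℕ) {κ : Fin n → Type}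
    [∀ j, Fintype (κ j)] {U : Fin n → Set ℂ} (hU : ∀ j, IsOpen (U j))
    (hc : ∀ j, IsPreconnected (U j)) {y : ∀ j, κ j → ℂ → ℂ}
    (hy : ∀ j i, AnalyticOnNhd ℂ (y j i) (U j))
    (hl : ∀ j, ∀ t ∈ U j, LocInd (y j) t) {K : Fin n → Set ℂ} (hK : ∀ j, IsCompact (K j))
    (hKU : ∀ j, K j ⊆ U j) (A ε : ℝ) (hε : 0 < ε) :
    ∃ B C T₀ : ℝ, ∀ (ξ : η → ℂ) (T : ℝ), T₀ ≤ T → ∀ X : Fin n → Finset ℂ,
      (∀ j, ∀ x ∈ X j, x ∈ K j ∧ AlgLe m T x) → ∀ E : Set (Fin n → ℂ),
      (∀ x ∈ E, (∀ j, x j ∈ X j) ∧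
        ∃ P : MvPolynomial (Σ j, κ j) ℂ, (∀ x, P.degreeOf x ≤ d) ∧
        (∀ s, ∃ c : η → ℂ, (∀ i, SInt (Set.range x) (T ^ A) (c i)) ∧ P.coeff s = ∑ i, ξ i * c i) ∧
        ∃ s₀, P.coeff s₀ ≠ 0 ∧ ‖MvPolynomial.aeval (fun z : Σ j, κ j =>
          y z.1 z.2 (x z.1)) P‖ ≤ T ^ (-B) * ‖P.coeff s₀‖) →
      E.Finite ∧ (E.ncard : ℝ) ≤ C * T ^ ε * MgF X := by
  classical
  set NN : ℕ := ∑ j, Fintype.card (κ j) with hNN
  have hle : ∀ j, Fintype.card (κ j) ≤ NN := fun j =>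
    Finset.single_le_sum (f := fun j => Fintype.card (κ j)) (fun _ _ => Nat.zero_le _)
      (Finset.mem_univ j)
  choose w hwa hwl using fun j => exists_pad (hU j) (hc j) (hy j) (hl j) (NN - Fintype.card (κ j))
  have hφ : ∀ j, Nonempty (κ j ⊕ Fin (NN - Fintype.card (κ j)) ≃ Fin NN) := fun j =>
    ⟨Fintype.equivFinOfCardEq (by
      rw [Fintype.card_sum, Fintype.card_fin]
      have := hle j
      omega)⟩
  have φ : ∀ j, κ j ⊕ Fin (NN - Fintype.card (κ j)) ≃ Fin NN := fun j => (hφ j).some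
  set y' : Fin n → Fin NN → ℂ → ℂ := fun j k => Sum.elim (y j) (w j) ((φ j).symm k) with hy'
  have hya : ∀ j k, AnalyticOnNhd ℂ (y' j k) (U j) := fun j k => by
    rcases h1 : (φ j).symm k with i | i
    · simp only [hy', h1]
      exact hy j i
    · simp only [hy', h1]
      exact hwa j i
  have hyl : ∀ j, ∀ t ∈ U j, LocInd (y' j) t := fun j t ht =>
    LocInd.comp_inj (hwl j t ht) (φ j).symm.injective
  obtain ⟨B, C, T₀, H⟩ := fields_main (κ := Fin NN) (η := η) m n d (fun j z k => y' j k z) K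
    (fun g j => oneV_of g (y' j) (K j) (hK j) (fun i t ht => hya j i t (hKU j ht))
      fun t ht => hyl j t (hKU j ht)) A ε hε
  set f : (Σ j, κ j) → Fin n × Fin NN := fun x => (x.1, φ x.1 (Sum.inl x.2)) with hf
  have hfi : Function.Injective f := by
    rintro ⟨j, a⟩ ⟨j', b⟩ hab
    obtain ⟨h1, h2⟩ := Prod.ext_iff.1 hab
    change j = j' at h1
    subst h1
    exact congrArg (Sigma.mk j) (Sum.inl_injective ((φ j).injective h2))
  refine ⟨B, C, max T₀ 1, fun ξ T hT X hX E hE => H ξ T ((le_max_left _ _).trans hT) X hX E fun t ht => ?_⟩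
  have hT1 : 1 ≤ T := (le_max_right _ _).trans hT
  obtain ⟨h1, P, hPd, hPc, s₀, hs₀, hs⟩ := hE t ht
  refine ⟨h1, rename f P, fun x => ?_, fun s => ?_, s₀.mapDomain f, ?_, ?_⟩
  · rw [degreeOf_le_iff]
    intro v hv
    rw [support_rename_of_injective hfi, Finset.mem_image] at hv
    obtain ⟨v', hv', rfl⟩ := hv
    by_cases hx : x ∈ Set.range f
    · obtain ⟨x', rfl⟩ := hx
      rw [Finsupp.mapDomain_apply hfi]
      exact degreeOf_le_iff.1 (hPd x') v' hv'
    · rw [Finsupp.mapDomain_of_notMem_range _ _ hx]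
      exact Nat.zero_le _
  · by_cases hx : ∃ v, Finsupp.mapDomain f v = s
    · obtain ⟨v, rfl⟩ := hx
      rw [coeff_rename_mapDomain f hfi]
      exact hPc v
    · refine ⟨fun _ => 0, fun i => ⟨zero_mem _, isIntegral_zero, fun z hz => ?_⟩, ?_⟩
      · rw [minpoly.zero, Polynomial.aroots_X, Multiset.mem_singleton] at hz
        rw [hz, norm_zero]
        exact Real.rpow_nonneg (by linarith) _
      · rw [coeff_rename_eq_zero f P s (fun u hu => absurd ⟨u, hu⟩ hx)]
        simp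
  · rw [coeff_rename_mapDomain f hfi]
    exact hs₀
  · rw [coeff_rename_mapDomain f hfi, aeval_rename]
    refine le_trans (le_of_eq ?_) hs
    congr 2
    apply MvPolynomial.algHom_ext
    rintro ⟨j, k⟩
    rw [aeval_X, aeval_X]
    change y' j (φ j (Sum.inl k)) (t j) = y j k (t j)
    simp only [hy', Equiv.symm_apply_apply, Sum.elim_inl]

end Pool.Agent.Q192.QD
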