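import Pool.Agent.Y776.Fam.Main
import Pool.Agent.TH813.EKPer
import Pool.Agent.TH813.EKBase
import Pool.Agent.Q192.QD.Sigma

/-!
# Relations between full period matrices of elliptic curves and further numbers
-/

set_option autoImplicit false

open Filter Topology Set
open scoped PeriodPair

noncomputable section

namespace Pool.Agent.Q192.QD

open H667R3 Pool.Agent.W245.EB Pool.Agent.TH813.Ell
open Pool.Agent.Y776.Fam Pool.Agent.Y776.Cv
open Pool.Agent.Y124 (LocInd)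

section size

theorem SInt_mono {S : Set ℂ} {H H' : ℝ} (h : H ≤ H') {c : ℂ} (hc : SInt S H c) : SInt S H' c :=
  ⟨hc.1, hc.2.1, fun z hz => (hc.2.2 z hz).trans h⟩

theorem SInt_zero {S : Set ℂ} {H : ℝ} (hH : 0 ≤ H) : SInt S H 0 := by
  refine ⟨zero_mem _, isIntegral_zero, fun z hz => ?_⟩
  rw [minpoly.zero, Polynomial.aroots_X, Multiset.mem_singleton] at hz
  rw [hz, norm_zero]
  exact hH

theorem SInt_nat {S : Set ℂ} {H : ℝ} {c : ℂ} (hc : SInt S H c) (N : ℕ) :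
    SInt S ((N : ℝ) * H) (c * N) := by
  rcases Nat.eq_zero_or_pos N with rfl | hN
  · rw [Nat.cast_zero, zero_mul, Nat.cast_zero, mul_zero]
    exact SInt_zero le_rfl
  have hN' : (N : ℂ) ≠ 0 := Nat.cast_ne_zero.2 hN.ne'
  have hint : IsIntegral ℤ (N : ℂ) := by
    have := isIntegral_algebraMap (R := ℤ) (A := ℂ) (x := (N : ℤ))
    simpa using this
  refine ⟨mul_mem hc.1 (natCast_mem _ _), hc.2.1.mul hint, fun z hz => ?_⟩
  have hcQ : IsIntegral ℚ c := hc.2.1.tower_top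
  have hcNQ : IsIntegral ℚ (c * N) := (hc.2.1.mul hint).tower_top
  have hz2 := (Polynomial.mem_aroots.1 hz).2
  -- `z / N` is a conjugate of `c`
  set q : Polynomial ℚ := (minpoly ℚ c).comp (Polynomial.C (1 / (N : ℚ)) * Polynomial.X) with hq
  have hq1 : ∀ y : ℂ, Polynomial.aeval y q = Polynomial.aeval (y / N) (minpoly ℚ c) := by
    intro y
    rw [hq, Polynomial.aeval_comp]
    congr 1
    rw [map_mul, Polynomial.aeval_C, Polynomial.aeval_X]
    simp only [one_div, map_inv₀, map_natCast]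
    rw [mul_comm, div_eq_mul_inv]
  have hdvd : minpoly ℚ (c * N) ∣ q := by
    apply minpoly.dvd
    rw [hq1, mul_div_cancel_right₀ _ hN', minpoly.aeval]
  have h3 : Polynomial.aeval z q = 0 := by
    obtain ⟨r, hr⟩ := hdvd
    rw [hr, map_mul, hz2, zero_mul]
  rw [hq1] at h3
  have h4 : z / N ∈ (minpoly ℚ c).aroots ℂ := Polynomial.mem_aroots.2 ⟨minpoly.ne_zero hcQ, h3⟩
  have h5 := hc.2.2 _ h4
  rw [norm_div, Complex.norm_natCast, div_le_iff₀ (by exact_mod_cast hN)] at h5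
  rw [mul_comm]
  exact h5

end size

section alg

variable {n g δ : ℕ}

/-- the variables: `n` matrices and `g` constants -/
abbrev Vr (n g : ℕ) : Type := (Fin n × Fin 4) ⊕ Fin g

/-- exponents -/
abbrev Ex (n g δ : ℕ) : Type := (Vr n g → Fin (δ + 1)) × (Fin n → Fin (δ + 1))

/-- the exponent as a finitely supported function -/
def ef (e : Vr n g → Fin (δ + 1)) : Vr n g →₀ ℕ := Finsupp.equivFunOnFinite.symm fun i => (e i : ℕ)

theorem ef_inj : Function.Injective (ef (n := n) (g := g) (δ := δ)) := by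
  intro e e' h
  funext i
  have h1 := DFunLike.congr_fun h i
  exact Fin.ext h1

theorem eval_fin (P : MvPolynomial (Vr n g) ℂ) (h : ∀ i, P.degreeOf i ≤ δ) (v : Vr n g → ℂ) :
    MvPolynomial.eval v P = ∑ e : Vr n g → Fin (δ + 1), P.coeff (ef e) * ∏ i, v i ^ (e i : ℕ) := by
  classical
  rw [MvPolynomial.eval_eq']
  have h1 : P.support ⊆ Finset.univ.image (ef (n := n) (g := g) (δ := δ)) := by
    intro m hm
    rw [Finset.mem_image]
    refine ⟨fun i => ⟨m i, Nat.lt_succ_of_le (MvPolynomial.degreeOf_le_iff.1 (h i) m hm)⟩, Finset.mem_univ _, ?_⟩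
    ext i
    rfl
  rw [Finset.sum_subset h1 (fun m _ hm => by rw [MvPolynomial.notMem_support_iff.1 hm, zero_mul]),
    Finset.sum_image fun _ _ _ _ h => ef_inj h]
  rfl

/-- the exponents of the new polynomial -/
def mu (x : Ex n g δ) : Fin n × Fin 3 →₀ ℕ := Finsupp.equivFunOnFinite.symm fun q =>
  ![(x.1 (Sum.inl (q.1, 0)) : ℕ) + (δ - (x.1 (Sum.inl (q.1, 3)) : ℕ)),
    (x.1 (Sum.inl (q.1, 1)) : ℕ) + ((x.1 (Sum.inl (q.1, 3)) : ℕ) - (x.2 q.1 : ℕ)),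
    (x.1 (Sum.inl (q.1, 2)) : ℕ) + ((x.1 (Sum.inl (q.1, 3)) : ℕ) - (x.2 q.1 : ℕ))] q.2

/-- the integers -/
def bi (x : Ex n g δ) : ℕ := ∏ j, ((x.1 (Sum.inl (j, 3)) : ℕ)).choose (x.2 j : ℕ)

/-- the constants -/
def xi (D : Fin n → ℂ) (κ : Fin g → ℂ) (x : Ex n g δ) : ℂ :=
  (∏ i, κ i ^ (x.1 (Sum.inr i) : ℕ)) * ∏ j, D j ^ (x.2 j : ℕ)

/-- the polynomial without `η₂` -/
def QQ (D : Fin n → ℂ) (κ : Fin g → ℂ) (P : MvPolynomial (Vr n g) ℂ) : MvPolynomial (Fin n × Fin 3) ℂ :=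
  ∑ x : Ex n g δ, MvPolynomial.monomial (mu x) (xi D κ x * (P.coeff (ef x.1) * bi x))

theorem bi_le (x : Ex n g δ) : bi x ≤ 2 ^ (δ * n) := by
  unfold bi
  calc ∏ j, ((x.1 (Sum.inl (j, 3)) : ℕ)).choose (x.2 j : ℕ) ≤ ∏ _j : Fin n, 2 ^ δ := by
        refine Finset.prod_le_prod (fun _ _ => Nat.zero_le _) fun j _ => ?_
        refine (Nat.choose_le_two_pow _ _).trans (Nat.pow_le_pow_right (by norm_num) ?_)
        exact Nat.lt_succ_iff.1 (x.1 (Sum.inl (j, 3))).2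
    _ = 2 ^ (δ * n) := by
        rw [Finset.prod_const, Finset.card_univ, Fintype.card_fin, ← pow_mul]

theorem mu_le (x : Ex n g δ) (q : Fin n × Fin 3) : mu x q ≤ 2 * δ := by
  obtain ⟨j, k⟩ := q
  have h0 := Nat.lt_succ_iff.1 (x.1 (Sum.inl (j, 0))).2
  have h1 := Nat.lt_succ_iff.1 (x.1 (Sum.inl (j, 1))).2
  have h2 := Nat.lt_succ_iff.1 (x.1 (Sum.inl (j, 2))).2
  have h3 := Nat.lt_succ_iff.1 (x.1 (Sum.inl (j, 3))).2
  fin_cases k
  · change (x.1 (Sum.inl (j, 0)) : ℕ) + (δ - (x.1 (Sum.inl (j, 3)) : ℕ)) ≤ 2 * δ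
    omega
  · change (x.1 (Sum.inl (j, 1)) : ℕ) + ((x.1 (Sum.inl (j, 3)) : ℕ) - (x.2 j : ℕ)) ≤ 2 * δ
    omega
  · change (x.1 (Sum.inl (j, 2)) : ℕ) + ((x.1 (Sum.inl (j, 3)) : ℕ) - (x.2 j : ℕ)) ≤ 2 * δ
    omega

theorem QQ_coeff (D : Fin n → ℂ) (κ : Fin g → ℂ) (P : MvPolynomial (Vr n g) ℂ) (s : Fin n × Fin 3 →₀ ℕ) :
    (QQ (δ := δ) D κ P).coeff s = ∑ x : Ex n g δ, xi D κ x *
      (if mu x = s then P.coeff (ef x.1) * bi x else 0) := by
  classical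
  rw [QQ, MvPolynomial.coeff_sum]
  refine Finset.sum_congr rfl fun x _ => ?_
  rw [MvPolynomial.coeff_monomial]
  by_cases h : mu x = s
  · rw [if_pos h, if_pos h]
  · rw [if_neg h, if_neg h, mul_zero]

theorem QQ_deg (D : Fin n → ℂ) (κ : Fin g → ℂ) (P : MvPolynomial (Vr n g) ℂ) (q : Fin n × Fin 3) :
    (QQ (δ := δ) D κ P).degreeOf q ≤ 2 * δ := by
  classical
  rw [MvPolynomial.degreeOf_le_iff]
  intro s hs
  rw [MvPolynomial.mem_support_iff, QQ_coeff] at hs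
  obtain ⟨x, -, hx⟩ := Finset.exists_ne_zero_of_sum_ne_zero hs
  have h1 : mu x = s := by
    by_contra h
    rw [if_neg h, mul_zero] at hx
    exact hx rfl
  rw [← h1]
  exact mu_le x q

/-- the identity for one matrix -/
theorem one_mat (w : Fin 4 → ℂ) (D : ℂ) (hD : w 0 * w 3 - w 1 * w 2 = D) (a b c d : ℕ) (hd : d ≤ δ) :
    ∑ k : Fin (δ + 1), (D ^ (k : ℕ) * (d.choose k : ℂ)) * (w 0 ^ (a + (δ - d)) * w 1 ^ (b + (d - k)) *
      w 2 ^ (c + (d - k))) = w 0 ^ δ * (w 0 ^ a * w 1 ^ b * w 2 ^ c * w 3 ^ d) := by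
  have h1 : ∑ k ∈ Finset.range (d + 1), D ^ k * (w 1 * w 2) ^ (d - k) * (d.choose k : ℂ) = (w 0 * w 3) ^ d := by
    rw [← add_pow, ← hD]
    congr 1
    ring
  rw [Finset.sum_range fun k => D ^ k * (w 1 * w 2) ^ (d - k) * (d.choose k : ℂ)] at h1
  have h2 : ∑ k : Fin (δ + 1), D ^ (k : ℕ) * (w 1 * w 2) ^ (d - (k : ℕ)) * (d.choose k : ℂ) = (w 0 * w 3) ^ d := by
    rw [← h1, ← Finset.sum_range fun k => D ^ k * (w 1 * w 2) ^ (d - k) * (d.choose k : ℂ),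
      ← Finset.sum_range fun k => D ^ k * (w 1 * w 2) ^ (d - k) * (d.choose k : ℂ)]
    symm
    apply Finset.sum_subset
    · intro k hk
      rw [Finset.mem_range] at hk ⊢
      omega
    · intro k _ hk
      rw [Finset.mem_range, not_lt] at hk
      rw [Nat.choose_eq_zero_of_lt (by omega), Nat.cast_zero, mul_zero]
  calc ∑ k : Fin (δ + 1), (D ^ (k : ℕ) * (d.choose k : ℂ)) * (w 0 ^ (a + (δ - d)) * w 1 ^ (b + (d - k)) *
      w 2 ^ (c + (d - k))) = w 0 ^ (a + (δ - d)) * w 1 ^ b * w 2 ^ c *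
        ∑ k : Fin (δ + 1), D ^ (k : ℕ) * (w 1 * w 2) ^ (d - (k : ℕ)) * (d.choose k : ℂ) := by
        rw [Finset.mul_sum]
        refine Finset.sum_congr rfl fun k _ => ?_
        rw [pow_add (w 1), pow_add (w 2), mul_pow]
        ring
    _ = w 0 ^ δ * (w 0 ^ a * w 1 ^ b * w 2 ^ c * w 3 ^ d) := by
        have h3 : w 0 ^ δ = w 0 ^ (δ - d) * w 0 ^ d := by
          rw [← pow_add]
          congr 1
          omega
        rw [h2, h3, pow_add, mul_pow]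
        ring

/-- the values of the new polynomial -/
theorem QQ_eval (D : Fin n → ℂ) (κ : Fin g → ℂ) (P : MvPolynomial (Vr n g) ℂ) (h : ∀ i, P.degreeOf i ≤ δ)
    (w : Fin n → Fin 4 → ℂ) (hw : ∀ j, w j 0 * w j 3 - w j 1 * w j 2 = D j) :
    MvPolynomial.eval (fun q : Fin n × Fin 3 => w q.1 q.2.castSucc) (QQ (δ := δ) D κ P) =
      (∏ j, w j 0 ^ δ) * MvPolynomial.eval (Sum.elim (fun q => w q.1 q.2) κ) P := by
  classical
  rw [eval_fin P h, QQ, map_sum, Fintype.sum_prod_type, Finset.mul_sum]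
  refine Finset.sum_congr rfl fun e _ => ?_
  have h1 : ∀ k : Fin n → Fin (δ + 1), MvPolynomial.eval (fun q : Fin n × Fin 3 => w q.1 q.2.castSucc)
      (MvPolynomial.monomial (mu (e, k)) (xi D κ (e, k) * (P.coeff (ef e) * bi (e, k)))) =
      (P.coeff (ef e) * ∏ i, κ i ^ (e (Sum.inr i) : ℕ)) * ∏ j, ((D j ^ (k j : ℕ) *
        (((e (Sum.inl (j, 3)) : ℕ)).choose (k j : ℕ) : ℂ)) *
        (w j 0 ^ ((e (Sum.inl (j, 0)) : ℕ) + (δ - (e (Sum.inl (j, 3)) : ℕ))) *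
        w j 1 ^ ((e (Sum.inl (j, 1)) : ℕ) + ((e (Sum.inl (j, 3)) : ℕ) - (k j : ℕ))) *
        w j 2 ^ ((e (Sum.inl (j, 2)) : ℕ) + ((e (Sum.inl (j, 3)) : ℕ) - (k j : ℕ))))) := by
    intro k
    rw [MvPolynomial.eval_monomial, Finsupp.prod_fintype _ _ (fun _ => pow_zero _), Fintype.prod_prod_type]
    have h2 : ∀ j, ∏ q : Fin 3, w j q.castSucc ^ (mu (e, k) (j, q)) =
        w j 0 ^ ((e (Sum.inl (j, 0)) : ℕ) + (δ - (e (Sum.inl (j, 3)) : ℕ))) *
        w j 1 ^ ((e (Sum.inl (j, 1)) : ℕ) + ((e (Sum.inl (j, 3)) : ℕ) - (k j : ℕ))) *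
        w j 2 ^ ((e (Sum.inl (j, 2)) : ℕ) + ((e (Sum.inl (j, 3)) : ℕ) - (k j : ℕ))) := by
      intro j
      rw [Fin.prod_univ_three]
      rfl
    simp only [h2, Finset.prod_mul_distrib]
    unfold xi bi
    push_cast
    ring
  rw [Finset.sum_congr rfl fun k _ => h1 k, ← Finset.mul_sum]
  have h3 := Finset.prod_univ_sum (fun _ : Fin n => (Finset.univ : Finset (Fin (δ + 1))))
    (fun j k => ((D j ^ (k : ℕ) * (((e (Sum.inl (j, 3)) : ℕ)).choose (k : ℕ) : ℂ)) *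
        (w j 0 ^ ((e (Sum.inl (j, 0)) : ℕ) + (δ - (e (Sum.inl (j, 3)) : ℕ))) *
        w j 1 ^ ((e (Sum.inl (j, 1)) : ℕ) + ((e (Sum.inl (j, 3)) : ℕ) - (k : ℕ))) *
        w j 2 ^ ((e (Sum.inl (j, 2)) : ℕ) + ((e (Sum.inl (j, 3)) : ℕ) - (k : ℕ))))))
  rw [Fintype.piFinset_univ] at h3
  rw [← h3, Finset.prod_congr rfl fun j _ => one_mat (w j) (D j) (hw j) _ _ _ _
    (Nat.lt_succ_iff.1 (e (Sum.inl (j, 3))).2)]
  rw [Finset.prod_mul_distrib]
  have h4 : ∏ i : Vr n g, Sum.elim (fun q => w q.1 q.2) κ i ^ (e i : ℕ) =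
      (∏ j, w j 0 ^ (e (Sum.inl (j, 0)) : ℕ) * w j 1 ^ (e (Sum.inl (j, 1)) : ℕ) *
        w j 2 ^ (e (Sum.inl (j, 2)) : ℕ) * w j 3 ^ (e (Sum.inl (j, 3)) : ℕ)) *
        ∏ i, κ i ^ (e (Sum.inr i) : ℕ) := by
    rw [Fintype.prod_sum_type, Fintype.prod_prod_type]
    congr 1
    refine Finset.prod_congr rfl fun j _ => ?_
    rw [Fin.prod_univ_four]
    rfl
  rw [h4]
  ring

/-- one can avoid `ω₁ = 0` -/
theorem perturb (D : Fin n → ℂ) (hD0 : ∀ j, D j ≠ 0) (κ : Fin g → ℂ) (P : MvPolynomial (Vr n g) ℂ)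
    (w : Fin n → Fin 4 → ℂ) (hw : ∀ j, w j 0 * w j 3 - w j 1 * w j 2 = D j)
    (hP : MvPolynomial.eval (Sum.elim (fun q => w q.1 q.2) κ) P ≠ 0) :
    ∃ w' : Fin n → Fin 4 → ℂ, (∀ j, w' j 0 * w' j 3 - w' j 1 * w' j 2 = D j) ∧ (∀ j, w' j 0 ≠ 0) ∧
      MvPolynomial.eval (Sum.elim (fun q => w' q.1 q.2) κ) P ≠ 0 := by
  classical
  set W : ℂ → Fin n → Fin 4 → ℂ := fun t j => ![w j 0 + t * w j 1, w j 1, w j 2 + t * w j 3, w j 3] with hW
  have hc : Continuous fun t => MvPolynomial.eval (Sum.elim (fun q => W t q.1 q.2) κ) P := by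
    have h1 : Continuous fun t => (Sum.elim (fun q : Fin n × Fin 4 => W t q.1 q.2) κ : Vr n g → ℂ) := by
      refine continuous_pi fun i => ?_
      rcases i with ⟨j, k⟩ | i
      · fin_cases k
        · exact continuous_const.add (continuous_id.mul continuous_const)
        · exact continuous_const
        · exact continuous_const.add (continuous_id.mul continuous_const)
        · exact continuous_const
      · exact continuous_const
    exact (MvPolynomial.continuous_eval P).comp h1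
  have h0 : MvPolynomial.eval (Sum.elim (fun q => W 0 q.1 q.2) κ) P ≠ 0 := by
    have h1 : W 0 = w := by
      funext j k
      fin_cases k
      · simp [hW]
      · rfl
      · simp [hW]
      · rfl
    rw [h1]
    exact hP
  have hev : ∀ᶠ t in 𝓝 (0 : ℂ), MvPolynomial.eval (Sum.elim (fun q => W t q.1 q.2) κ) P ≠ 0 :=
    hc.continuousAt.eventually_ne h0
  have hfin : {t : ℂ | ∃ j, w j 0 + t * w j 1 = 0}.Finite := by
    have h1 : {t : ℂ | ∃ j, w j 0 + t * w j 1 = 0} = ⋃ j, {t : ℂ | w j 0 + t * w j 1 = 0} := by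
      ext t
      simp
    rw [h1]
    refine Set.finite_iUnion fun j => ?_
    by_cases hj : w j 1 = 0
    · have h2 : {t : ℂ | w j 0 + t * w j 1 = 0} = ∅ := by
        ext t
        simp only [Set.mem_ofPred_eq, Set.mem_empty_iff_false, iff_false]
        rw [hj, mul_zero, add_zero]
        intro h3
        apply hD0 j
        rw [← hw j, h3, hj]
        ring
      rw [h2]
      exact Set.finite_empty
    · refine (Set.finite_singleton (-w j 0 / w j 1)).subset fun t ht => ?_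
      rw [Set.mem_singleton_iff, eq_div_iff hj]
      have ht' : w j 0 + t * w j 1 = 0 := ht
      linear_combination ht'
  obtain ⟨t, ht1, ht2⟩ : ∃ t, MvPolynomial.eval (Sum.elim (fun q => W t q.1 q.2) κ) P ≠ 0 ∧
      t ∉ {t : ℂ | ∃ j, w j 0 + t * w j 1 = 0} := by
    have h1 : ∃ᶠ t in 𝓝 (0 : ℂ), t ∉ {t : ℂ | ∃ j, w j 0 + t * w j 1 = 0} := by
      have h2 : Dense ({t : ℂ | ∃ j, w j 0 + t * w j 1 = 0})ᶜ := hfin.countable.dense_compl ℂ
      exact mem_closure_iff_frequently.1 (h2 0)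
    exact (h1.and_eventually hev).exists.imp fun t h => ⟨h.2, h.1⟩
  refine ⟨W t, fun j => ?_, fun j h3 => ht2 ⟨j, h3⟩, ht1⟩
  change (w j 0 + t * w j 1) * w j 3 - w j 1 * (w j 2 + t * w j 3) = D j
  rw [← hw j]
  ring

end alg

section fam

variable {U : Set ℂ} {Λ : ℂ → PeriodPair}

/-- the full period matrix -/
def pm (Λ : ℂ → PeriodPair) (z : ℂ) : Fin 4 → ℂ :=
  ![(Λ z).ω₁, (Λ z).ω₂, eta (Λ z) (Λ z).ω₁, eta (Λ z) (Λ z).ω₂]

/-- the functions without `η₂` -/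
def y3 (Λ : ℂ → PeriodPair) (k : Fin 3) (z : ℂ) : ℂ := pm Λ z k.castSucc

/-- the family without points -/
abbrev Fm0 (U : Set ℂ) (Λ : ℂ → PeriodPair) : Prop :=
  Fm (r := 0) (s := 0) (q := 0) U Λ (fun i => i.elim0) (fun i => i.elim0) (fun i => i.elim0) (fun i => i.elim0)

theorem y3_eq (Λ : ℂ → PeriodPair) (k : Fin 3) : y3 Λ k =
    yfam (r := 0) (s := 0) (q := 0) Λ (fun i => i.elim0) (fun i => i.elim0) (fun i => i.elim0) (Sum.inl k) := by
  funext z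
  fin_cases k <;> rfl

theorem y3_an (h : Fm0 U Λ) (k : Fin 3) : AnalyticOnNhd ℂ (y3 Λ k) U := by
  rw [y3_eq]
  exact yfam_an h _

theorem y3_loc (h : Fm0 U Λ) {t : ℂ} (ht : t ∈ U) : LocInd (y3 Λ) t := by
  have h1 := LocInd.comp_inj (fam_locInd h ht) (e := fun k : Fin 3 => (Sum.inl k : Yi 0 0 0)) Sum.inl_injective
  have h2 : (fun k : Fin 3 => yfam (r := 0) (s := 0) (q := 0) Λ (fun i => i.elim0) (fun i => i.elim0)
      (fun i => i.elim0) (Sum.inl k)) = y3 Λ := funext fun k => (y3_eq Λ k).symm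
  rw [h2] at h1
  exact h1

/-- the determinant -/
def dt (w : Fin 4 → ℂ) : ℂ := w 0 * w 3 - w 1 * w 2

theorem dt_ne (Λ : ℂ → PeriodPair) (z : ℂ) : dt (pm Λ z) ≠ 0 := by
  obtain ⟨n, hn, h⟩ := legendre (Λ z)
  have h1 : dt (pm Λ z) = n * (2 * Real.pi * Complex.I) := h
  rw [h1]
  exact mul_ne_zero (Int.cast_ne_zero.2 hn) Complex.two_pi_I_ne_zero

/-- the determinant is constant -/
theorem dt_const (h : LF U Λ) {z z' : ℂ} (hz : z ∈ U) (hz' : z' ∈ U) : dt (pm Λ z) = dt (pm Λ z') := by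
  have h2 : AnalyticOnNhd ℂ (fun z => eta (Λ z) (Λ z).ω₂) U := by
    have h3 : (fun z => eta (Λ z) (Λ z).ω₂) = fun z => 2 * zeta (Λ z) ((Λ z).ω₂ / 2) := by
      funext z
      exact eta_half (Λ z).ω₂_mem_lattice (half₂ (Λ z))
    rw [h3]
    exact analyticOnNhd_const.mul (h.an_zeta (p := fun z => (Λ z).ω₂ / 2)
      (fun z hz => (h.an₂ z hz).div analyticAt_const two_ne_zero) fun z _ => half₂ (Λ z))
  have hc : ContinuousOn (fun z => dt (pm Λ z)) U := by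
    have h3 : AnalyticOnNhd ℂ (fun z => (Λ z).ω₁ * eta (Λ z) (Λ z).ω₂ - (Λ z).ω₂ * eta (Λ z) (Λ z).ω₁) U :=
      (h.an₁.mul h2).sub (h.an₂.mul h.an_eta)
    exact h3.continuousOn
  have hcount : (Set.range fun n : ℤ => (n : ℂ) * (2 * Real.pi * Complex.I)).Countable :=
    Set.countable_range _
  have hsub : (fun z => dt (pm Λ z)) '' U ⊆ Set.range fun n : ℤ => (n : ℂ) * (2 * Real.pi * Complex.I) := by
    rintro _ ⟨z, -, rfl⟩
    obtain ⟨n, -, h⟩ := legendre (Λ z)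
    exact ⟨n, h.symm⟩
  exact hcount.isTotallyDisconnected _ hsub (h.conn.image _ hc) ⟨z, hz, rfl⟩ ⟨z', hz', rfl⟩

/-- **relations between the full period matrices of the fibres and constants** -/
theorem per_count {n g : ℕ} (m δ : ℕ) {U : Fin n → Set ℂ} {Λ : Fin n → ℂ → PeriodPair}
    (hF : ∀ j, Fm0 (U j) (Λ j)) {K : Fin n → Set ℂ} (hK : ∀ j, IsCompact (K j)) (hKU : ∀ j, K j ⊆ U j)
    (A ε : ℝ) (hε : 0 < ε) :
    ∃ C T₀ : ℝ, ∀ (κ : Fin g → ℂ) (T : ℝ), T₀ ≤ T → ∀ X : Fin n → Finset ℂ,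
      (∀ j, ∀ x ∈ X j, x ∈ K j ∧ AlgLe m T x) → ∀ E : Set (Fin n → ℂ),
      (∀ x ∈ E, (∀ j, x j ∈ X j) ∧ ∃ P : MvPolynomial (Vr n g) ℂ, P.totalDegree ≤ δ ∧
        (∀ e, SInt (Set.range x) (T ^ A) (P.coeff e)) ∧
        MvPolynomial.eval (Sum.elim (fun q => pm (Λ q.1) (x q.1) q.2) κ) P = 0 ∧
        ∃ w : Fin n → Fin 4 → ℂ, (∀ j, dt (w j) = dt (pm (Λ j) (x j))) ∧
          MvPolynomial.eval (Sum.elim (fun q => w q.1 q.2) κ) P ≠ 0) →
      E.Finite ∧ (E.ncard : ℝ) ≤ C * T ^ ε * MgF X := by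
  classical
  obtain ⟨B, C, T₀, H⟩ := fields_main (κ := Fin 3) (η := Ex n g δ) m n (2 * δ) (fun j z k => y3 (Λ j) k z) K
    (fun g j => Pool.Agent.Y124.oneV_of g (y3 (Λ j)) (K j) (hK j) (fun k t ht => y3_an (hF j) k t (hKU j ht))
      fun t ht => y3_loc (hF j) (hKU j ht)) (A + 1) ε hε
  refine ⟨C, max T₀ (max 1 (2 ^ (δ * n))), fun κ T hT X hX E hE => ?_⟩
  have hT0 : T₀ ≤ T := (le_max_left _ _).trans hT
  have hT1 : 1 ≤ T := ((le_max_left _ _).trans (le_max_right _ _)).trans hT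
  have hT2 : (2 : ℝ) ^ (δ * n) ≤ T := ((le_max_right _ _).trans (le_max_right _ _)).trans hT
  have hTp : 0 < T := by linarith
  -- the determinants
  by_cases hEe : E = ∅
  · rw [hEe]
    have hM : 0 ≤ MgF X := by
      unfold MgF
      exact Finset.sum_nonneg fun j _ => mul_nonneg (Nat.cast_nonneg _)
        (Finset.prod_nonneg fun i _ => Nat.cast_nonneg _)
    obtain ⟨-, h2⟩ := H (fun _ => 0) T hT0 X hX ∅ (fun x hx => absurd hx (Set.notMem_empty x))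
    exact ⟨Set.finite_empty, h2⟩
  obtain ⟨x₀, hx₀⟩ := Set.nonempty_iff_ne_empty.2 hEe
  have hx₀U : ∀ j, x₀ j ∈ U j := fun j => hKU j (hX j _ ((hE x₀ hx₀).1 j)).1
  set D : Fin n → ℂ := fun j => dt (pm (Λ j) (x₀ j)) with hD
  -- the constants depend on the determinants only
  refine H (xi D κ) T hT0 X hX E fun x hx => ?_
  obtain ⟨hxX, P, hPd, hPc, hP0, w, hw, hPw⟩ := hE x hx
  have hxU : ∀ j, x j ∈ U j := fun j => hKU j (hX j _ (hxX j)).1
  have hdeg : ∀ i, P.degreeOf i ≤ δ := fun i => (MvPolynomial.degreeOf_le_totalDegree P i).trans hPd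
  have hdx : ∀ j, dt (pm (Λ j) (x j)) = D j := fun j => dt_const (hF j).toLF (hxU j) (hx₀U j)
  obtain ⟨w', hw', hw0, hPw'⟩ := perturb D (fun j => dt_ne _ _) κ P w (fun j => (hw j).trans (hdx j)) hPw
  refine ⟨hxX, QQ (δ := δ) D κ P, QQ_deg D κ P, fun s => ?_, ?_⟩
  · refine ⟨fun y => if mu y = s then P.coeff (ef y.1) * bi y else 0, fun y => ?_, QQ_coeff D κ P s⟩
    change SInt (Set.range x) (T ^ (A + 1)) (if mu y = s then P.coeff (ef y.1) * bi y else 0)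
    by_cases hy : mu y = s
    · rw [if_pos hy]
      refine SInt_mono ?_ (SInt_nat (hPc (ef y.1)) (bi y))
      rw [Real.rpow_add hTp, Real.rpow_one, mul_comm]
      refine mul_le_mul_of_nonneg_left (le_trans ?_ hT2) (Real.rpow_nonneg hTp.le _)
      exact_mod_cast bi_le y
    · rw [if_neg hy]
      exact SInt_zero (Real.rpow_nonneg hTp.le _)
  · have hne : QQ (δ := δ) D κ P ≠ 0 := by
      intro h0
      have h1 := QQ_eval D κ P hdeg w' hw'
      rw [h0, map_zero] at h1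
      exact mul_ne_zero (Finset.prod_ne_zero_iff.2 fun j _ => pow_ne_zero _ (hw0 j)) hPw' h1.symm
    obtain ⟨s₀, hs₀⟩ := MvPolynomial.ne_zero_iff.1 hne
    refine ⟨s₀, hs₀, ?_⟩
    have h1 := QQ_eval D κ P hdeg (fun j => pm (Λ j) (x j)) hdx
    rw [hP0, mul_zero] at h1
    have h2 : MvPolynomial.aeval (fun y : Fin n × Fin 3 => y3 (Λ y.1) y.2 (x y.1)) (QQ (δ := δ) D κ P) = 0 := by
      rw [MvPolynomial.aeval_eq_eval]
      exact h1
    rw [h2, norm_zero]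
    positivity

end fam

end Pool.Agent.Q192.QD
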