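import Pool.Agent.Y776.Cv.Var
import Pool.Agent.Y776.AxJ.Alg

/-!
# Families of lattices with points and exponents: all functions of a subfamily are independent
-/

set_option autoImplicit false

open Filter Topology Set
open scoped PeriodPair

noncomputable section

namespace Pool.Agent.Q192.QD

open Pool.Agent.Y776.Cv Pool.Agent.Y776.Fam Pool.Agent.Y685
open Pool.Agent.TH813.Rel (DF MK rk_le_of_subset_cl)
open Pool.Agent.Y124 (LocInd)

/-- if the `4 + 2 r + s` dimensional field of the family is algebraic over `z` and `3 + 2 r + s` functions, these are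
independent -/
theorem varAll {U : Set ℂ} {Λ : ℂ → PeriodPair} {r s : ℕ} {u : Fin r → ℂ → ℂ} {l : Fin s → ℂ → ℂ}
    (h : FxV U Λ u l) (hne : U.Nonempty) {κ : Type} [Fintype κ] {y : κ → ℂ → ℂ}
    (hy : ∀ k, AnalyticOnNhd ℂ (y k) U) (hκ : Fintype.card κ = 3 + (s + 2 * r)) {G : Set ℂ} (hG : G.Countable)
    (hsub : ∀ F : IntermediateField ℚ ℂ, G ⊆ F → ∀ z ∈ U, ¬ IsAlgebraic F z → ∀ k,
      yv Λ u l k z ∈ clo F (insert z (Set.range fun k => y k z))) :
    ∀ t ∈ U, LocInd y t := by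
  classical
  obtain ⟨zs, hzs⟩ := hne
  obtain ⟨F, z₀, hFc, hF, hz₀, htr, hr⟩ := h.exists_gen ⟨zs, hzs⟩ (T := TS y zs ∪ G)
    ((TS_countable _ _).union hG)
  have h1 : 3 + (s + 2 * r) + 1 = 4 + (s + 2 * r) := by ring
  obtain ⟨e, he, hL⟩ := Pool.Agent.Y776.Cv.exists_sub (N := 3 + (s + 2 * r)) h.conn h.isOpen hy hzs
    (fun x hx => hF (Or.inl hx)) hz₀ htr (by
      rw [h1]
      exact hr.trans (rk_le_of_subset_cl (by
        rintro _ ⟨k, rfl⟩
        rw [← mem_clo_iff]
        exact hsub F (fun x hx => hF (Or.inr hx)) z₀ hz₀ htr k)))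
  have hb : Function.Bijective e :=
    (Fintype.bijective_iff_injective_and_card e).2 ⟨he, by rw [Fintype.card_fin, hκ]⟩
  exact fun t ht => Pool.Agent.Y776.AxJ.locInd_equiv (Equiv.ofBijective e hb) (hL t ht)

end Pool.Agent.Q192.QD
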